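import Pool.Agent.P.MP_a0f0ad_al.Fi.Z.Defs

/-! Chapter V: the convex dual problem. -/

namespace Pool.Agent.P.MP_a0f0ad_al.Fi

open Finset MeasureTheory

-- deps:
/-- letter data exist -/
def S_LDX : Prop :=
  ∀ (d : ℕ) (S : Finset (G d)), 2 ≤ d → Sym S → ∃ D : LD d, D.Spec S

-- deps:
/-- Markov type bounds for polynomials that are bounded on an interval -/
def S_MARK : Prop :=
  ∀ (d : ℕ) (L : ℝ), ∃ C : ℝ, 0 < C ∧ ∀ (q : Fin d → ℝ) (m M B : ℝ), m < M → -L ≤ m → M ≤ L →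
    (∀ x ∈ Set.Icc m M, |ev q 0 x| ≤ B) →
    ‖q‖ * (M - m) ^ d ≤ C * B ∧
      ∀ (k : ℕ), ∀ x ∈ Set.Icc m M, |ev q k x| * (M - m) ^ k ≤ C * B

-- deps: MARK
/-- the dual problem with a quadratic penalty; the case `t = 0` is plain attainment -/
def S_PEN : Prop :=
  ∀ (d : ℕ) (S : Finset (G d)) (D : LD d), D.Spec S → ∀ (m M : ℝ) (u : E d), m ≤ 0 → 0 ≤ u.1 →
    u.1 ≤ M → m < M →
    (∀ q, D.Feas q m M → D.Bf q m M u ≤ D.Psi m M u) ∧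
    ∀ (p : Fin d → ℝ) (t : ℝ), 0 ≤ t → ∃ q, D.Feas q m M ∧
      D.Bf q m M (u.1, u.2 - t • (q - p)) = D.Psi m M (u.1, u.2 - t • (q - p))

-- deps: MARK PEN
/-- homogeneity, positivity, bounded ranges and sublevel sets, a lower bound for the range -/
def S_HOM : Prop :=
  ∀ (d : ℕ) (S : Finset (G d)) (D : LD d), D.Spec S →
    (∀ l (u : E d), 0 < l → 0 ≤ u.1 → D.NN (dil l u) = l * D.NN u) ∧
    (∀ u : E d, 0 ≤ u.1 → 0 ≤ D.NN u) ∧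
    (∀ (u : E d) m M, m ≤ 0 → 0 ≤ u.1 → u.1 ≤ M → m < M →
      D.NN u ≤ D.Psi m M u ∧ D.lp 0 * (M - m) ≤ D.Psi m M u) ∧
    (∃ L, ∀ u : E d, 0 ≤ u.1 → D.NN u ≤ 2 → ‖u‖ ≤ L) ∧
    ∀ B : ℝ, ∃ c : ℝ, 0 < c ∧ ∀ (u : E d) m M, m ≤ 0 → 0 ≤ u.1 → u.1 ≤ M → m < M →
      D.Psi m M u ≤ B → c * ell u ≤ M - m

-- deps: MARK PEN HOM
/-- the best range exists -/
def S_ATT : Prop :=
  ∀ (d : ℕ) (S : Finset (G d)) (D : LD d), D.Spec S → ∀ u : E d, 0 ≤ u.1 → 0 < ell u →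
    ∃ m M, m ≤ 0 ∧ u.1 ≤ M ∧ m < M ∧ D.Psi m M u = D.NN u

-- deps: PEN HOM
/-- the gradient of the limit length is dual optimal for every best range -/
def S_SUBG : Prop :=
  ∀ (d : ℕ) (S : Finset (G d)) (D : LD d), D.Spec S → ∀ (u p : E d) (m M : ℝ), 0 < u.1 →
    Grad D.NN p u → m ≤ 0 → u.1 ≤ M → D.Psi m M u = D.NN u →
    D.Feas p.2 m M ∧ D.Bf p.2 m M u = D.NN u

-- deps: PEN
/-- an optimal dual polynomial gives a representation -/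
def S_KKT : Prop :=
  ∀ (d : ℕ) (S : Finset (G d)) (D : LD d), D.Spec S → ∀ (u : E d) (q : Fin d → ℝ) (m M : ℝ),
    m ≤ 0 → 0 ≤ u.1 → u.1 ≤ M → m < M → D.Feas q m M → D.Bf q m M u = D.Psi m M u →
    (Nonconst q ∨ ∀ k < D.n, ev q 0 0 ≠ D.th k ∧ ev q 0 0 ≠ -D.th k) →
    ∃ (Z : Finset ℝ) (mu : ℝ → ℝ), Z.card ≤ d ∧ RD.Rep ⟨q, m, M, Z, mu⟩ D u

-- deps: PEN
/-- a representation is optimal for its range -/
def S_PUB : Prop :=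
  ∀ (d : ℕ) (S : Finset (G d)) (D : LD d), D.Spec S → ∀ (u : E d) (ρ : RD d), 0 ≤ u.1 →
    ρ.Rep D u → D.Psi ρ.m ρ.M u = D.Bf ρ.q ρ.m ρ.M u ∧
      D.Q * ∑ z ∈ ρ.Z, |ρ.mu z| ≤ D.Bf ρ.q ρ.m ρ.M u

-- deps: MARK PEN
/-- every point has an almost optimal bang-bang representation -/
def S_APR : Prop :=
  ∀ (d : ℕ) (S : Finset (G d)) (D : LD d), 1 ≤ d → D.Spec S → ∀ (u : E d) (m M e : ℝ),
    m ≤ 0 → 0 ≤ u.1 → u.1 ≤ M → m < M → 0 < e →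
    ∃ (φ : Fin (d + 1) → ℝ) (Z : Finset ℝ) (mu : ℝ → ℝ), Nonconst φ ∧
      (∀ x ∈ Set.Icc m M, |ev φ 0 x| ≤ D.Q) ∧ Z.card ≤ d + 1 ∧ (∀ z ∈ Z, m ≤ z ∧ z ≤ M) ∧
      (∀ j, u.2 j = (∫ x in m..M, D.kp (ev φ 0 x) * Vd 0 x j) -
        (∫ x in m..0, D.kp (-ev φ 0 x) * Vd 0 x j) -
        (∫ x in u.1..M, D.kp (-ev φ 0 x) * Vd 0 x j) + ∑ z ∈ Z, mu z * Vd 0 z j) ∧
      (∫ x in m..M, (((D.A (D.idx (ev φ 0 x))).a : ℝ))⁻¹) +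
        (∫ x in m..0, (((D.A (D.idx (-ev φ 0 x))).a : ℝ))⁻¹) +
        (∫ x in u.1..M, (((D.A (D.idx (-ev φ 0 x))).a : ℝ))⁻¹) + D.Q * ∑ z ∈ Z, |mu z| ≤
        D.Psi m M u + e

-- deps: MARK PEN HOM ATT SUBG KKT PUB
/-- at a point of differentiability there is an optimal stationary representation -/
def S_OPT : Prop :=
  ∀ (d : ℕ) (S : Finset (G d)) (D : LD d), D.Spec S → ∀ u p : E d, 0 < u.1 → Grad D.NN p u →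
    Nonconst p.2 → ∃ ρ : RD d, ρ.q = p.2 ∧ ρ.Opt D u p.1

-- deps: MARK PEN HOM ATT SUBG KKT PUB APR
/-- the case of a constant gradient polynomial -/
def S_OPTC : Prop :=
  ∀ (d : ℕ) (S : Finset (G d)) (D : LD d), D.Spec S → ∀ u p : E d, 0 < u.1 → Grad D.NN p u →
    ¬ Nonconst p.2 → ∃ m M, m ≤ 0 ∧ u.1 ≤ M ∧ D.Feas p.2 m M ∧ D.Psi m M u = D.NN u ∧
      D.Bf p.2 m M u = D.NN u ∧ p.1 = D.lp (ev p.2 0 0) ∧
      (0 < D.om (ev p.2 0 0) → m = 0 ∧ M = u.1)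

end Pool.Agent.P.MP_a0f0ad_al.Fi
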