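import Mathlib

/-! Convex analysis in `Fin d → ℝ`: compact convex hulls, a Farkas lemma with at most `d` atoms,
coefficient bounds for polynomials, and the proximal trick for subgradients. -/

namespace Pool.Agent.P.MP_a0f0ad_al.Fi

open Set

namespace ConeA

variable {d : ℕ}

lemma clm_dot (f : (Fin d → ℝ) →L[ℝ] ℝ) : ∃ g : Fin d → ℝ, ∀ x, f x = g ⬝ᵥ x := by
  refine ⟨fun j => f (Pi.single j 1), fun x => ?_⟩
  conv_lhs => rw [← Finset.univ_sum_single x, map_sum]
  refine Finset.sum_congr rfl fun j _ => ?_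
  rw [show Pi.single j (x j) = x j • (Pi.single j 1 : Fin d → ℝ) by
    rw [← Pi.single_smul, smul_eq_mul, mul_one], map_smul, smul_eq_mul, mul_comm]

lemma hull (Z : Set ℝ) (ω : ℝ → Fin d → ℝ) (g : Fin d → ℝ) (hg : ∀ z ∈ Z, g ⬝ᵥ ω z = 1) :
    convexHull ℝ (ω '' Z) = (fun p : (Fin d → ℝ) × (Fin d → ℝ) => ∑ i, p.1 i • ω (p.2 i)) ''
      (stdSimplex ℝ (Fin d) ×ˢ univ.pi fun _ => Z) := by
  refine Subset.antisymm (fun x hx => ?_) ?_
  · obtain ⟨ι, _, z, w, h1, h2, h3, h4, rfl⟩ := eq_pos_convex_span_of_mem_convexHull hx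
    choose t ht hz using fun i => h1 (mem_range_self i)
    have hli : LinearIndependent ℝ z := by
      rw [Fintype.linearIndependent_iff]
      intro c hc
      have h0 : ∑ i, c i = 0 := by
        have := congrArg (g ⬝ᵥ ·) hc
        simp only [dotProduct_sum, dotProduct_smul, ← hz, hg _ (ht _), smul_eq_mul, mul_one,
          dotProduct_zero] at this
        exact this
      exact fun i => affineIndependent_iff.1 h2 Finset.univ c h0 hc i (Finset.mem_univ i)
    have hc := hli.fintype_card_le_finrank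
    rw [Module.finrank_fin_fun] at hc
    obtain ⟨e⟩ : Nonempty (ι ↪ Fin d) := Function.Embedding.nonempty_of_card_le (by simpa using hc)
    have hne : Nonempty ι := by
      by_contra h
      rw [not_nonempty_iff] at h
      simp at h4
    obtain ⟨i0⟩ := hne
    have hout : ∀ j ∉ range e, Function.extend e w 0 j = 0 := fun j hj =>
      Function.extend_apply' _ _ _ hj
    refine ⟨(Function.extend e w 0, Function.extend e t fun _ => t i0), ⟨⟨fun j => ?_, ?_⟩,
      fun j _ => ?_⟩, ?_⟩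
    · by_cases hj : j ∈ range e
      · obtain ⟨i, rfl⟩ := hj
        simpa [e.injective.extend_apply] using (h3 i).le
      · exact (hout j hj).ge
    · rw [← h4]
      exact (Fintype.sum_of_injective e e.injective _ _ hout
        fun i => by simp [e.injective.extend_apply]).symm
    · by_cases hj : j ∈ range e
      · obtain ⟨i, rfl⟩ := hj
        simpa [e.injective.extend_apply] using ht i
      · simp only [Function.extend_apply' _ _ _ hj]; exact ht i0
    · exact (Fintype.sum_of_injective e e.injective _ _ (fun j hj => by simp [hout j hj])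
        fun i => by simp [e.injective.extend_apply, hz]).symm
  · rintro _ ⟨p, ⟨⟨h1, h2⟩, h3⟩, rfl⟩
    exact (convex_convexHull ℝ _).sum_mem (fun i _ => h1 i) h2
      fun i _ => subset_convexHull ℝ _ ⟨_, h3 i (mem_univ i), rfl⟩

end ConeA

open ConeA in
/-- Farkas lemma for a compact family, with at most `d` atoms. -/
theorem cone_rep {d : ℕ} (Z : Set ℝ) (hZ : IsCompact Z) (ω : ℝ → Fin d → ℝ) (hω : Continuous ω)
    (g : Fin d → ℝ) (hg : ∀ z ∈ Z, 0 < g ⬝ᵥ ω z) (v : Fin d → ℝ)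
    (hv : ∀ f, (∀ z ∈ Z, f ⬝ᵥ ω z < 0) → f ⬝ᵥ v ≤ 0) :
    ∃ (T : Finset ℝ) (μ : ℝ → ℝ), ↑T ⊆ Z ∧ T.card ≤ d ∧ (∀ z ∈ T, 0 < μ z) ∧
      v = ∑ z ∈ T, μ z • ω z := by
  classical
  have hv' : ∀ f, (∀ z ∈ Z, f ⬝ᵥ ω z ≤ 0) → f ⬝ᵥ v ≤ 0 := by
    intro f hf
    refine le_of_forall_pos_le_add fun ε hε => ?_
    have hp : 0 < |g ⬝ᵥ v| + 1 := by positivity
    have := hv (f - (ε / (|g ⬝ᵥ v| + 1)) • g) fun z hz => by
      have := hf z hz
      have := mul_pos (div_pos hε hp) (hg z hz)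
      rw [sub_dotProduct, smul_dotProduct, smul_eq_mul]; linarith
    rw [sub_dotProduct, smul_dotProduct, smul_eq_mul] at this
    have h2 : ε / (|g ⬝ᵥ v| + 1) * (g ⬝ᵥ v) ≤ ε := by
      rw [div_mul_eq_mul_div, div_le_iff₀ hp]
      nlinarith [le_abs_self (g ⬝ᵥ v)]
    linarith
  set ω' : ℝ → Fin d → ℝ := fun z => (g ⬝ᵥ ω z)⁻¹ • ω z
  have hc : ContinuousOn ω' Z :=
    ((by fun_prop : Continuous fun z => g ⬝ᵥ ω z).continuousOn.inv₀
      fun z hz => (hg z hz).ne').smul hω.continuousOn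
  have h1 : ∀ z ∈ Z, g ⬝ᵥ ω' z = 1 := fun z hz => by
    simp [ω', inv_mul_cancel₀ (hg z hz).ne']
  have key : ∀ f s, (∀ z ∈ Z, f ⬝ᵥ ω' z ≤ s) → f ⬝ᵥ v ≤ s * (g ⬝ᵥ v) := fun f s h => by
    have := hv' (f - s • g) fun z hz => by
      have h2 := h z hz
      simp only [ω', dotProduct_smul, smul_eq_mul] at h2
      rw [inv_mul_le_iff₀ (hg z hz)] at h2
      rw [sub_dotProduct, smul_dotProduct, smul_eq_mul]; linarith
    rw [sub_dotProduct, smul_dotProduct, smul_eq_mul] at this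
    linarith
  have h0 : 0 ≤ g ⬝ᵥ v := by simpa using key 0 1 fun _ _ => by simp
  rcases h0.eq_or_lt with h0 | h0
  · obtain ⟨s, hs⟩ := (hZ.image_of_continuousOn
      (f := fun z => v ⬝ᵥ ω' z) ((by fun_prop : Continuous (v ⬝ᵥ ·)).comp_continuousOn hc)).bddAbove
    have := key v s fun z hz => hs ⟨z, hz, rfl⟩
    rw [← h0, mul_zero] at this
    have : v = 0 := dotProduct_self_eq_zero.1
      (this.antisymm (Finset.sum_nonneg fun _ _ => mul_self_nonneg _))
    exact ⟨∅, 0, by simp, by simp, by simp, by simp [this]⟩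
  have hK : IsCompact (convexHull ℝ (ω' '' Z)) := by
    rw [hull Z ω' g h1]
    refine ((isCompact_stdSimplex ℝ _).prod (isCompact_univ_pi fun _ => hZ)).image_of_continuousOn
      (continuousOn_finsetSum _ fun i _ => ?_)
    refine ContinuousOn.smul (f := fun p : (Fin d → ℝ) × (Fin d → ℝ) => p.1 i) (by fun_prop) ?_
    exact hc.comp (f := fun p : (Fin d → ℝ) × (Fin d → ℝ) => p.2 i) (by fun_prop)
      fun p hp => hp.2 i (mem_univ i)
  have hm : (g ⬝ᵥ v)⁻¹ • v ∈ convexHull ℝ (ω' '' Z) := by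
    by_contra hn
    obtain ⟨f, s, a, b⟩ := geometric_hahn_banach_closed_point (convex_convexHull ℝ _) hK.isClosed hn
    obtain ⟨f', hf⟩ := clm_dot f
    have := key f' s fun z hz => by
      rw [← hf]; exact (a _ (subset_convexHull ℝ _ ⟨z, hz, rfl⟩)).le
    rw [hf, dotProduct_smul, smul_eq_mul, lt_inv_mul_iff₀ h0] at b
    linarith
  rw [hull Z ω' g h1] at hm
  obtain ⟨⟨μ, z⟩, ⟨⟨h2, -⟩, h3⟩, h4⟩ := hm
  simp only at h2 h3 h4
  set I := Finset.univ.filter fun i => 0 < μ i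
  refine ⟨I.image z, fun t => (g ⬝ᵥ v) * (∑ i ∈ I with z i = t, μ i) * (g ⬝ᵥ ω t)⁻¹, ?_, ?_, ?_, ?_⟩
  · intro t ht
    obtain ⟨i, -, rfl⟩ := Finset.mem_image.1 ht
    exact h3 i (mem_univ i)
  · exact Finset.card_image_le.trans ((Finset.card_le_univ _).trans (by simp))
  · intro t ht
    obtain ⟨i, hi, rfl⟩ := Finset.mem_image.1 ht
    refine mul_pos (mul_pos h0 (Finset.sum_pos (fun j hj => ?_) ⟨i, by simp [hi]⟩))
      (inv_pos.2 (hg _ (h3 i (mem_univ i))))
    exact (Finset.mem_filter.1 (Finset.mem_filter.1 hj).1).2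
  · have e1 : ∑ i, μ i • ω' (z i) = ∑ i ∈ I, μ i • ω' (z i) :=
      (Finset.sum_subset (Finset.subset_univ _) fun i _ hi => by
        rw [le_antisymm (by simpa [I] using hi) (h2 i), zero_smul]).symm
    refine (smul_inv_smul₀ h0.ne' v).symm.trans ?_
    rw [← h4, e1, ← Finset.sum_fiberwise_of_maps_to
      (fun i hi => Finset.mem_image_of_mem z hi), Finset.smul_sum]
    refine Finset.sum_congr rfl fun t _ => ?_
    rw [Finset.sum_congr rfl (g := fun i => μ i • ω' t)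
      fun i hi => by rw [(Finset.mem_filter.1 hi).2], ← Finset.sum_smul]
    simp only [ω', smul_smul, mul_assoc]

/-- Coefficients of a polynomial that is bounded on an interval containing `0`. -/
theorem coef_bound (d : ℕ) : ∃ C : ℝ, 0 < C ∧ ∀ (q : Fin d → ℝ) (m M Q : ℝ), m ≤ 0 → 0 ≤ M →
    (∀ x ∈ Icc m M, |∑ j, q j * x ^ (j : ℕ)| ≤ Q) → ∀ j, |q j| * (M - m) ^ (j : ℕ) ≤ C * Q := by
  set v : Fin d → ℝ := fun i => (i : ℝ) / d
  have hv : Function.Injective v := fun i j h => by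
    have : (0 : ℝ) < d := by exact_mod_cast i.pos
    exact Fin.ext (by exact_mod_cast (div_left_inj' this.ne').1 h)
  have hdet : IsUnit (Matrix.vandermonde v).det :=
    (Matrix.det_vandermonde_ne_zero_iff.2 hv).isUnit
  set A := LinearMap.toContinuousLinearMap (Matrix.mulVecLin (Matrix.vandermonde v)⁻¹)
  have key : ∀ (q : Fin d → ℝ) (L Q : ℝ), (∀ t ∈ Icc (0 : ℝ) 1, |∑ j, q j * (t * L) ^ (j : ℕ)| ≤ Q) →
      ∀ j, |q j| * |L| ^ (j : ℕ) ≤ ‖A‖ * Q := by
    intro q L Q h j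
    set p : Fin d → ℝ := fun j => q j * L ^ (j : ℕ)
    have hQ : 0 ≤ Q := (abs_nonneg _).trans (h 0 (by simp))
    have h1 : ‖(Matrix.vandermonde v).mulVec p‖ ≤ Q := (pi_norm_le_iff_of_nonneg hQ).2 fun i => by
      have : (0 : ℝ) < d := by exact_mod_cast i.pos
      have := h (v i) ⟨by positivity, (div_le_one this).2 (by exact_mod_cast i.2.le)⟩
      refine le_of_eq_of_le (congrArg (fun x : ℝ => |x|) ?_) this
      simp only [Matrix.mulVec, dotProduct, Matrix.vandermonde_apply, p, mul_pow]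
      exact Finset.sum_congr rfl fun j _ => by ring
    have h2 : A ((Matrix.vandermonde v).mulVec p) = p := by
      simp [A, Matrix.nonsing_inv_mul _ hdet]
    have h3 := (norm_le_pi_norm p j).trans (h2 ▸ A.le_of_opNorm_le_of_le le_rfl h1)
    simpa [p] using h3
  refine ⟨2 ^ d * (‖A‖ + 1), by positivity, fun q m M Q hm hM h j => ?_⟩
  have hQ : 0 ≤ Q := (abs_nonneg _).trans (h 0 ⟨hm, hM⟩)
  obtain ⟨L, h1, h2⟩ : ∃ L, M - m ≤ 2 * |L| ∧ ∀ t ∈ Icc (0 : ℝ) 1, t * L ∈ Icc m M := by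
    rcases le_total (-m) M with a | a
    · exact ⟨M, by rw [abs_of_nonneg hM]; linarith, fun t ht => ⟨by nlinarith [ht.1], by nlinarith [ht.2]⟩⟩
    · exact ⟨m, by rw [abs_of_nonpos hm]; linarith, fun t ht => ⟨by nlinarith [ht.2], by nlinarith [ht.1]⟩⟩
  have h3 := key q L Q (fun t ht => h _ (h2 t ht)) j
  have h4 : (M - m) ^ (j : ℕ) ≤ 2 ^ d * |L| ^ (j : ℕ) := by
    refine (pow_le_pow_left₀ (by linarith) h1 _).trans ?_
    rw [mul_pow]
    exact mul_le_mul_of_nonneg_right (pow_le_pow_right₀ one_le_two j.2.le) (by positivity)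
  have h5 : (0 : ℝ) < 2 ^ d := by positivity
  nlinarith [mul_le_mul_of_nonneg_left h4 (abs_nonneg (q j)), mul_le_mul_of_nonneg_left h3 h5.le,
    mul_nonneg h5.le hQ]

/-- A maximiser of a concave function minus a quadratic penalty maximises the tilted function. -/
theorem prox_opt {d : ℕ} {F : Set (Fin d → ℝ)} (hF : Convex ℝ F) {g : (Fin d → ℝ) → ℝ}
    (hg : ConcaveOn ℝ F g) (t : ℝ) (p q : Fin d → ℝ) (hq : q ∈ F)
    (h : ∀ r ∈ F, g r - t / 2 * ((r - p) ⬝ᵥ (r - p)) ≤ g q - t / 2 * ((q - p) ⬝ᵥ (q - p))) :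
    ∀ r ∈ F, g r - t * (r ⬝ᵥ (q - p)) ≤ g q - t * (q ⬝ᵥ (q - p)) := by
  intro r hr
  have key : ∀ s : ℝ, 0 < s → s ≤ 1 →
      g r - g q - t * ((r - q) ⬝ᵥ (q - p)) ≤ s * (t / 2 * ((r - q) ⬝ᵥ (r - q))) := by
    intro s h0 h1
    have a := h _ (hF hq hr (sub_nonneg.2 h1) h0.le (by ring))
    have b := hg.2 hq hr (sub_nonneg.2 h1) h0.le (by ring)
    rw [show (1 - s) • q + s • r - p = (q - p) + s • (r - q) by module] at a
    simp only [add_dotProduct, dotProduct_add, smul_dotProduct, dotProduct_smul, smul_eq_mul,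
      dotProduct_comm (q - p) (r - q)] at a b
    refine le_of_mul_le_mul_left ?_ h0
    linarith
  have : g r - g q - t * ((r - q) ⬝ᵥ (q - p)) ≤ 0 := by
    refine le_of_forall_pos_le_add fun ε hε => ?_
    set K := t / 2 * ((r - q) ⬝ᵥ (r - q))
    have hp : 0 < |K| + ε := by positivity
    refine (key (ε / (|K| + ε)) (by positivity)
      ((div_le_one hp).2 (by linarith [abs_nonneg K]))).trans ?_
    rw [div_mul_eq_mul_div, div_le_iff₀ hp]
    nlinarith [le_abs_self K]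
  rw [sub_dotProduct] at this
  linarith

/-- A subgradient of a supremum of affine functions is a maximiser. -/
theorem subg_opt {d : ℕ} {F : Set (Fin d → ℝ)} (hF : Convex ℝ F) (hK : IsCompact F)
    (hne : F.Nonempty) {g : (Fin d → ℝ) → ℝ} (hg : ConcaveOn ℝ F g) (hc : ContinuousOn g F)
    (y p : Fin d → ℝ) (Ψ : ℝ) (hΨ : ∀ r ∈ F, r ⬝ᵥ y + g r ≤ Ψ)
    (hp : ∀ y' Ψ', (∀ r ∈ F, r ⬝ᵥ y' + g r ≤ Ψ') → Ψ + p ⬝ᵥ (y' - y) ≤ Ψ') :
    p ∈ F ∧ p ⬝ᵥ y + g p = Ψ := by
  have hg' : ConcaveOn ℝ F fun r => r ⬝ᵥ y + g r := ⟨hF, fun a ha b hb s t hs ht e => by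
    have := hg.2 ha hb hs ht e
    simp only [add_dotProduct, smul_dotProduct, smul_eq_mul] at this ⊢
    linarith⟩
  obtain ⟨q, hq, h⟩ := hK.exists_isMaxOn hne
    (f := fun r => r ⬝ᵥ y + g r - 1 / 2 * ((r - p) ⬝ᵥ (r - p)))
    ((ContinuousOn.add (by fun_prop) hc).sub (by fun_prop))
  have h1 := prox_opt hF hg' 1 p q hq fun r hr => h hr
  have h2 := hp (y - (q - p)) (q ⬝ᵥ y + g q - 1 * q ⬝ᵥ (q - p)) fun r hr => by
    have := h1 r hr
    rw [dotProduct_sub]; linarith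
  have h3 := hΨ q hq
  rw [sub_sub_cancel_left, dotProduct_neg] at h2
  have h4 : (q - p) ⬝ᵥ (q - p) ≤ 0 := by rw [sub_dotProduct]; linarith
  have h5 : q = p := sub_eq_zero.1 (dotProduct_self_eq_zero.1
    (h4.antisymm (Finset.sum_nonneg fun _ _ => mul_self_nonneg _)))
  subst h5
  simp only [sub_self, dotProduct_zero] at h2
  exact ⟨hq, by linarith⟩

end Pool.Agent.P.MP_a0f0ad_al.Fi
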