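import Pool.Agent.P.MP_a0f0ad_al.Fi.Z.Bm
import Pool.Agent.P.MP_a0f0ad_al.Fi.V.Cone

/-! Chapter V: the functionals of an arbitrary continuous profile `φ`, and the primal bound. -/

namespace Pool.Agent.P.MP_a0f0ad_al.Fi

open Finset MeasureTheory

namespace VB

variable {d : ℕ} {D : LD d} {S : Finset (G d)}

theorem dot_eq (q y : Fin d → ℝ) : dot q y = q ⬝ᵥ y := rfl
theorem single_dot (q : Fin d → ℝ) (j : Fin d) (c : ℝ) : dot (Pi.single j c) q = c * q j :=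
  single_dotProduct q c j
theorem Vd0 (x : ℝ) (j : Fin d) : Vd 0 x j = x ^ (j : ℕ) := by simp [Vd]
theorem ev0 (q : Fin d → ℝ) (x : ℝ) : ev q 0 x = ∑ j, q j * x ^ (j : ℕ) := by simp [ev, dot, Vd0]
theorem ev_single (j : Fin d) (c x : ℝ) : ev (Pi.single j c) 0 x = c * x ^ (j : ℕ) := by
  rw [ev, single_dot, Vd0]
theorem cVd (j : Fin d) : Continuous fun x => Vd 0 x j := (continuous_apply j).comp (continuous_Vd 0)

theorem tangent (h : D.Spec S) (u v : ℝ) : D.lp v ≤ D.lp u - D.kp u * (v - u) := by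
  have := h.lp_le (D.idx_le u) v
  rw [D.lp_eq u, LD.kp]; linarith

/-- the time per unit of height of the vertex chosen by `u` -/
noncomputable def ia (D : LD d) (u : ℝ) : ℝ := (((D.A (D.idx u)).a : ℝ))⁻¹

theorem ia_eq (u : ℝ) : ia D u = D.lp u + D.kp u * u := by rw [D.lp_eq u, ia]; ring

theorem ia_nonneg (h : D.Spec S) (u : ℝ) : 0 ≤ ia D u :=
  inv_nonneg.2 (by exact_mod_cast (h.memA _ (D.idx_le u)).2.le)

theorem le_ia (h : D.Spec S) (u v : ℝ) : D.kp u * v + D.lp v ≤ ia D u := by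
  have := tangent h u v
  rw [ia_eq]; linarith

theorem om_nn (h : D.Spec S) {u : ℝ} (hu : |u| ≤ D.Q) : 0 ≤ D.om u := by
  obtain ⟨c, hc, -, h1, -⟩ := h.exists_slack
  exact (mul_nonneg hc.le (sub_nonneg.2 hu)).trans (h1 u hu)

theorem ii_lp (h : D.Spec S) {φ : ℝ → ℝ} (hφ : Continuous φ) (s t : ℝ) :
    IntervalIntegrable (fun x => D.lp (φ x)) volume s t :=
  (h.continuous_lp.comp hφ).intervalIntegrable s t

/-- the sum of the three passes: `f` upwards on `[m, M]`, `g` downwards on `[m, 0]`, `[a, M]` -/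
noncomputable def P3 (f g : ℝ → ℝ) (m M a : ℝ) : ℝ :=
  (∫ x in m..M, f x) + (∫ x in m..0, g x) + ∫ x in a..M, g x

/-- locally integrable -/
def II (f : ℝ → ℝ) : Prop := ∀ s t, IntervalIntegrable f volume s t

theorem II.add {f g : ℝ → ℝ} (hf : II f) (hg : II g) : II fun x => f x + g x :=
  fun s t => (hf s t).add (hg s t)
theorem II.sub {f g : ℝ → ℝ} (hf : II f) (hg : II g) : II fun x => f x - g x :=
  fun s t => (hf s t).sub (hg s t)
theorem II.neg {f : ℝ → ℝ} (hf : II f) : II fun x => -f x := fun s t => (hf s t).neg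
theorem II.const_mul {f : ℝ → ℝ} (hf : II f) (c : ℝ) : II fun x => c * f x :=
  fun s t => (hf s t).const_mul c
theorem II.of_cont {f : ℝ → ℝ} (hf : Continuous f) : II f := hf.intervalIntegrable

theorem P3_add {f g f' g' : ℝ → ℝ} (hf : II f) (hg : II g) (hf' : II f') (hg' : II g')
    (m M a : ℝ) : P3 (fun x => f x + f' x) (fun x => g x + g' x) m M a =
      P3 f g m M a + P3 f' g' m M a := by
  simp only [P3, intervalIntegral.integral_add (hf _ _) (hf' _ _),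
    intervalIntegral.integral_add (hg _ _) (hg' _ _)]
  ring

theorem P3_mul (c : ℝ) (f g : ℝ → ℝ) (m M a : ℝ) :
    P3 (fun x => c * f x) (fun x => c * g x) m M a = c * P3 f g m M a := by
  simp only [P3, intervalIntegral.integral_const_mul]; ring

theorem P3_const (c c' m M a : ℝ) :
    P3 (fun _ => c) (fun _ => c') m M a = c * (M - m) + c' * (M - a - m) := by
  simp only [P3, intervalIntegral.integral_const, smul_eq_mul]; ring

theorem P3_mono {f g f' g' : ℝ → ℝ} (hf : II f) (hg : II g) (hf' : II f') (hg' : II g')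
    {m M a : ℝ} (hm : m ≤ 0) (ha : 0 ≤ a) (hM : a ≤ M) (h1 : ∀ x ∈ Set.Icc m M, f x ≤ f' x)
    (h2 : ∀ x ∈ Set.Icc m M, g x ≤ g' x) : P3 f g m M a ≤ P3 f' g' m M a :=
  add_le_add_three (intervalIntegral.integral_mono_on (by linarith) (hf _ _) (hf' _ _) h1)
    (intervalIntegral.integral_mono_on hm (hg _ _) (hg' _ _)
      fun x hx => h2 x ⟨hx.1, by linarith [hx.2]⟩)
    (intervalIntegral.integral_mono_on hM (hg _ _) (hg' _ _)
      fun x hx => h2 x ⟨by linarith [hx.1], hx.2⟩)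

/-- change of the range and of the end point -/
theorem P3_sub {f g : ℝ → ℝ} (hf : II f) (hg : II g) (m M a m' M' a' : ℝ) :
    P3 f g m' M' a' - P3 f g m M a =
      (∫ x in M..M', f x + g x) + (∫ x in m'..m, f x + g x) - ∫ x in a..a', g x := by
  have i := fun {f : ℝ → ℝ} (hf : II f) (r s t : ℝ) =>
    intervalIntegral.integral_add_adjacent_intervals (hf r s) (hf s t)
  simp only [P3, intervalIntegral.integral_add (hf _ _) (hg _ _)]
  linarith [i hf m' m M, i hf m' M M', i hg m' m 0, i hg a a' M', i hg a M M']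

/-- the dual integrals -/
noncomputable def Jf (D : LD d) (φ : ℝ → ℝ) (m M a : ℝ) : ℝ :=
  P3 (fun x => D.lp (φ x)) (fun x => D.lp (-φ x)) m M a
/-- the deposit tested against `g` -/
noncomputable def Yf (D : LD d) (φ g : ℝ → ℝ) (m M a : ℝ) : ℝ :=
  P3 (fun x => D.kp (φ x) * g x) (fun x => -(D.kp (-φ x) * g x)) m M a
/-- the time -/
noncomputable def Cf (D : LD d) (φ : ℝ → ℝ) (m M a : ℝ) : ℝ :=
  P3 (fun x => ia D (φ x)) (fun x => ia D (-φ x)) m M a
/-- the deposit -/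
noncomputable def Yv (D : LD d) (φ : ℝ → ℝ) (m M a : ℝ) : Fin d → ℝ :=
  fun j => Yf D φ (fun x => Vd 0 x j) m M a

theorem Bf_eq (q : Fin d → ℝ) (m M : ℝ) (u : E d) :
    D.Bf q m M u = dot q u.2 + Jf D (ev q 0) m M u.1 := by
  simp only [LD.Bf, Jf, P3, add_assoc]

theorem Yf_eq (φ g : ℝ → ℝ) (m M a : ℝ) : Yf D φ g m M a = (∫ x in m..M, D.kp (φ x) * g x) -
    (∫ x in m..0, D.kp (-φ x) * g x) - ∫ x in a..M, D.kp (-φ x) * g x := by
  simp only [Yf, P3, intervalIntegral.integral_neg, sub_eq_add_neg]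

theorem Yq_eq (q : Fin d → ℝ) (m M a : ℝ) : D.Yq q m M a = Yv D (ev q 0) m M a :=
  funext fun _ => (Yf_eq ..).symm

variable {φ : ℝ → ℝ}

theorem dot_Yv (h : D.Spec S) (hφ : Continuous φ) (f : Fin d → ℝ) (m M a : ℝ) :
    dot f (Yv D φ m M a) = Yf D φ (ev f 0) m M a := by
  have k := fun (ψ : ℝ → ℝ) (hψ : Continuous ψ) s t => dot_integral f (fun x => D.kp (ψ x)) 0 s t
    (by simpa using h.ii_kp hψ (continuous_const (y := 1)) s t)
  rw [Yf_eq, ← k φ hφ, ← k _ hφ.fun_neg, ← k _ hφ.fun_neg, ← dot_sub_right, ← dot_sub_right]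
  exact congrArg _ (funext fun j => Yf_eq ..)

theorem Cf_eq (h : D.Spec S) (hφ : Continuous φ) (m M a : ℝ) :
    Cf D φ m M a = Jf D φ m M a + Yf D φ φ m M a := by
  rw [Jf, Yf, ← P3_add (ii_lp h hφ) (ii_lp h hφ.fun_neg) (h.ii_kp hφ hφ)
    (II.neg (h.ii_kp hφ.fun_neg hφ))]
  simp only [Cf, ia_eq, mul_neg]

theorem Cf_nonneg (h : D.Spec S) (hφ : Continuous φ) {m M a : ℝ} (hm : m ≤ 0) (ha : 0 ≤ a)
    (hM : a ≤ M) : 0 ≤ Cf D φ m M a := by
  have := P3_mono (II.of_cont (continuous_const (y := 0))) (II.of_cont (continuous_const (y := 0)))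
    (h.ii_inv_a hφ) (h.ii_inv_a hφ.fun_neg) hm ha hM (fun x _ => ia_nonneg h _)
    fun x _ => ia_nonneg h _
  rwa [P3_const, zero_mul, zero_mul, add_zero] at this

theorem Yf_add_Jf_le (h : D.Spec S) (hφ : Continuous φ) {g : ℝ → ℝ} (hg : Continuous g)
    {m M a : ℝ} (hm : m ≤ 0) (ha : 0 ≤ a) (hM : a ≤ M) :
    Yf D φ g m M a + Jf D g m M a ≤ Cf D φ m M a := by
  rw [Jf, Yf, ← P3_add (h.ii_kp hφ hg) (II.neg (h.ii_kp hφ.fun_neg hg)) (ii_lp h hg)
    (ii_lp h hg.fun_neg)]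
  refine P3_mono (II.add (h.ii_kp hφ hg) (ii_lp h hg))
    ((II.neg (h.ii_kp hφ.fun_neg hg)).add (ii_lp h hg.fun_neg)) (h.ii_inv_a hφ)
    (h.ii_inv_a hφ.fun_neg) hm ha hM (fun x _ => le_ia h _ _) fun x _ => ?_
  simpa only [mul_neg, ia] using le_ia h (-φ x) (-g x)

theorem feas_zero (h : D.Spec S) (m M : ℝ) : D.Feas 0 m M := fun x _ => by simpa using h.Qpos.le

theorem Psi_le (h : D.Spec S) {m M B : ℝ} {u : E d} (H : ∀ q, D.Feas q m M → D.Bf q m M u ≤ B) :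
    D.Psi m M u ≤ B :=
  csSup_le ⟨_, 0, feas_zero h m M, rfl⟩ fun _ ⟨q, hq, e⟩ => e ▸ H q hq

/-- the primal bound: any profile, any atoms in the range -/
theorem primal (h : D.Spec S) (hφ : Continuous φ) {m M a : ℝ} (hm : m ≤ 0) (ha : 0 ≤ a)
    (hM : a ≤ M) (Z : Finset ℝ) (mu π : ℝ → ℝ) (hπ : ∀ z ∈ Z, π z ∈ Set.Icc m M) :
    D.Psi m M (a, Yv D φ m M a + ∑ z ∈ Z, mu z • Vd 0 (π z)) ≤
      Cf D φ m M a + D.Q * ∑ z ∈ Z, |mu z| := by
  refine Psi_le h fun q hq => ?_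
  have h1 := Yf_add_Jf_le h hφ (continuous_ev q 0) hm ha hM
  have h2 : ∑ z ∈ Z, dot q (mu z • Vd 0 (π z)) ≤ D.Q * ∑ z ∈ Z, |mu z| := by
    rw [mul_sum]
    refine sum_le_sum fun z hz => ?_
    rw [dot_smul_right, mul_comm D.Q]
    refine (le_abs_self _).trans ?_
    rw [abs_mul]
    exact mul_le_mul_of_nonneg_left (hq _ (hπ z hz)) (abs_nonneg _)
  rw [Bf_eq, dot_add_right, dot_Yv h hφ, dot_sum_right]
  linarith

end VB

end Pool.Agent.P.MP_a0f0ad_al.Fi
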