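import Pool.Agent.P.MP_a0f0ad_al.Fi.V.Iface
import Pool.Agent.P.MP_a0f0ad_al.Fi.V.Vb

/-! Step KKT of the filiform project. -/

namespace Pool.Agent.P.MP_a0f0ad_al.Fi

open Finset MeasureTheory Filter Topology

namespace VB

variable {d : ℕ} {D : LD d} {S : Finset (G d)} {φ ψ : ℝ → ℝ}

theorem deriv_int (h : D.Spec S) (hφ : Continuous φ) (hψ : Continuous ψ)
    (hn : ∀ᵐ x, ∀ k < D.n, φ x ≠ D.th k) (s r : ℝ) :
    HasDerivAt (fun t : ℝ => ∫ x in s..r, D.lp (φ x + t * ψ x))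
      (∫ x in s..r, -(D.kp (φ x) * ψ x)) 0 := by
  obtain ⟨C, hC, -, -, hl, -⟩ := h.exists_bound
  refine (intervalIntegral.hasDerivAt_integral_of_dominated_loc_of_lip (s := Set.univ)
    (F := fun t x => D.lp (φ x + t * ψ x)) (bound := fun x => C * |ψ x|) univ_mem
    (Eventually.of_forall fun t => (h.continuous_lp.comp (by fun_prop)).aestronglyMeasurable)
    (ii_lp h (by fun_prop) s r) ?_ (Eventually.of_forall fun x _ => ?_)
    (Continuous.intervalIntegrable (by fun_prop) s r) (hn.mono fun x hx _ => ?_)).2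
  · exact ((h.measurable_kp.comp hφ.measurable).mul hψ.measurable).neg.aestronglyMeasurable
  · refine (LipschitzWith.of_dist_le_mul fun t t' => ?_).lipschitzOnWith
    refine (hl _ _).trans (le_of_eq ?_)
    rw [show φ x + t * ψ x - (φ x + t' * ψ x) = ψ x * (t - t') by ring, Real.coe_nnabs, abs_mul,
      abs_mul, abs_abs, abs_of_pos (by linarith : 0 < C), Real.dist_eq, mul_assoc]
  · have h1 : HasDerivAt (fun t : ℝ => φ x + t * ψ x) (ψ x) 0 := by
      simpa using ((hasDerivAt_id (0 : ℝ)).mul_const (ψ x)).const_add (φ x)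
    have h2 : HasDerivAt D.lp (-D.kp (φ x)) (φ x + 0 * ψ x) := by simpa using h.hasDerivAt_lp hx
    simpa [Function.comp_def] using h2.comp (0 : ℝ) h1

theorem deriv_Jf (h : D.Spec S) (hφ : Continuous φ) (hψ : Continuous ψ)
    (hn : ∀ᵐ x, ∀ k < D.n, φ x ≠ D.th k ∧ -φ x ≠ D.th k) (m M a : ℝ) :
    HasDerivAt (fun t : ℝ => Jf D (fun x => φ x + t * ψ x) m M a) (-Yf D φ ψ m M a) 0 := by
  have h1 := deriv_int h hφ hψ (hn.mono fun x hx k hk => (hx k hk).1)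
  have h2 := deriv_int h hφ.fun_neg hψ.fun_neg (hn.mono fun x hx k hk => (hx k hk).2)
  refine (((h1 m M).fun_add (h2 m 0)).fun_add (h2 a M)).congr_deriv ?_ |>.congr_of_eventuallyEq
    (Eventually.of_forall fun t => ?_)
  · simp only [Yf, P3, mul_neg, neg_neg, intervalIntegral.integral_neg]; ring
  · simp only [Jf, P3, mul_neg, neg_add]

theorem deriv_nonpos {f : ℝ → ℝ} {c : ℝ} (hf : HasDerivAt f c 0)
    (h : ∀ᶠ t in 𝓝[>] 0, f t ≤ f 0) : c ≤ 0 := by
  refine le_of_tendsto hf.tendsto_slope_zero_right ?_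
  filter_upwards [h, self_mem_nhdsWithin] with t h1 h2
  rw [zero_add, smul_eq_mul]
  exact mul_nonpos_of_nonneg_of_nonpos (inv_nonneg.2 (le_of_lt h2)) (sub_nonpos.2 h1)

theorem feas_dir {Q m M : ℝ} (hQ : 0 < Q) (hφ : Continuous φ) (hψ : Continuous ψ)
    (h1 : ∀ x ∈ Set.Icc m M, |φ x| ≤ Q) (h2 : ∀ x ∈ Set.Icc m M, |φ x| = Q → φ x * ψ x < 0) :
    ∀ᶠ t in 𝓝[>] (0 : ℝ), ∀ x ∈ Set.Icc m M, |φ x + t * ψ x| ≤ Q := by
  have : ∀ᶠ t in 𝓝 (0 : ℝ), ∀ x ∈ Set.Icc m M, 0 < t → |φ x| ≤ Q → |φ x + t * ψ x| ≤ Q := by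
    refine isCompact_Icc.eventually_forall_of_forall_eventually fun y hy => ?_
    rcases (h1 y hy).eq_or_lt with e | e
    · have a1 : ∀ᶠ z : ℝ × ℝ in 𝓝 (0, y), φ z.2 * ψ z.2 < 0 :=
        ContinuousAt.eventually_lt (by fun_prop) (by fun_prop) (h2 y hy e)
      have a2 : ∀ᶠ z : ℝ × ℝ in 𝓝 (0, y), |z.1 * ψ z.2| < Q :=
        ContinuousAt.eventually_lt (by fun_prop) (by fun_prop) (by simpa using hQ)
      filter_upwards [a1, a2] with z b1 b2 b3 b4
      have b5 : φ z.2 * (z.1 * ψ z.2) < 0 := by nlinarith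
      obtain ⟨c1, c2⟩ := abs_le.1 b4
      obtain ⟨c3, c4⟩ := abs_lt.1 b2
      rcases mul_neg_iff.1 b5 with ⟨d1, d2⟩ | ⟨d1, d2⟩ <;> exact abs_le.2 ⟨by linarith, by linarith⟩
    · have a1 : ∀ᶠ z : ℝ × ℝ in 𝓝 (0, y), |φ z.2 + z.1 * ψ z.2| < Q :=
        ContinuousAt.eventually_lt (by fun_prop) (by fun_prop) (by simpa using e)
      exact a1.mono fun z hz _ _ => hz.le
  filter_upwards [nhdsWithin_le_nhds this, self_mem_nhdsWithin] with t a b x hx
  exact a x hx b (h1 x hx)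

/-- the optimality condition for an arbitrary continuous profile -/
theorem kkt0 (h : D.Spec S) (hφ : Continuous φ) (m M a : ℝ) (y g : Fin d → ℝ)
    (hQ : ∀ x ∈ Set.Icc m M, |φ x| ≤ D.Q)
    (hn : ∀ᵐ x, ∀ k < D.n, φ x ≠ D.th k ∧ -φ x ≠ D.th k)
    (hg : ∀ x ∈ Set.Icc m M, |φ x| = D.Q → 0 < φ x * ev g 0 x)
    (ho : ∀ f, (∀ x ∈ Set.Icc m M, |φ x + ev f 0 x| ≤ D.Q) →
      dot f y + Jf D (fun x => φ x + ev f 0 x) m M a ≤ Jf D φ m M a) :
    ∃ (Z : Finset ℝ) (mu : ℝ → ℝ), Z.card ≤ d ∧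
      (∀ z ∈ Z, m ≤ z ∧ z ≤ M ∧ |φ z| = D.Q ∧ 0 < mu z * φ z) ∧
      y = Yv D φ m M a + ∑ z ∈ Z, mu z • Vd 0 z := by
  have hK : IsCompact (Set.Icc m M ∩ {x | |φ x| = D.Q}) :=
    isCompact_Icc.inter_right (isClosed_eq (by fun_prop) continuous_const)
  have e : ∀ (f : Fin d → ℝ) z, f ⬝ᵥ (φ z • Vd 0 z) = φ z * ev f 0 z := fun f z =>
    dot_smul_right ..
  obtain ⟨Z, μ, h1, h2, h3, h4⟩ := cone_rep _ hK (fun z => φ z • Vd 0 z) (by fun_prop) g
    (fun z hz => by rw [e]; exact hg z hz.1 hz.2) (y - Yv D φ m M a) fun f hf => by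
      have a1 := feas_dir h.Qpos hφ (continuous_ev f 0) hQ fun x hx hx' => by
        rw [← e]; exact hf x ⟨hx, hx'⟩
      have a2 := ((hasDerivAt_id (0 : ℝ)).mul_const (dot f y)).fun_add
        (deriv_Jf h hφ (continuous_ev f 0) hn m M a)
      have a3 := deriv_nonpos a2 (a1.mono fun t ht => by
        have := ho (t • f) (by simpa only [ev_smul] using ht)
        simpa only [ev_smul, dot_smul_left, id, zero_mul, add_zero, zero_add] using this)
      rw [← dot_eq, dot_sub_right, dot_Yv h hφ]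
      linarith
  refine ⟨Z, fun z => μ z * φ z, h2, fun z hz => ⟨(h1 hz).1.1, (h1 hz).1.2, (h1 hz).2, ?_⟩, ?_⟩
  · have : φ z ≠ 0 := fun e0 => by
      have := (h1 hz).2
      rw [Set.mem_ofPred_eq, e0, abs_zero] at this
      exact h.Qpos.ne this
    rw [mul_assoc]
    exact mul_pos (h3 z hz) (mul_self_pos.2 this)
  · simp only [← smul_smul, ← h4, add_sub_cancel]

theorem null_levels (D : LD d) {e : ℕ} {q : Fin e → ℝ} (hq : Nonconst q) :
    ∀ᵐ x, ∀ k < D.n, ev q 0 x ≠ D.th k ∧ -ev q 0 x ≠ D.th k := by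
  refine ae_all_iff.2 fun k => ?_
  filter_upwards [compl_mem_ae_iff.2 ((hq.finite_level (D.th k)).1.measure_zero volume),
    compl_mem_ae_iff.2 ((hq.finite_level (-D.th k)).1.measure_zero volume)] with x a b _
  exact ⟨a, fun c => b (neg_eq_iff_eq_neg.1 c)⟩

end VB

open VB in
theorem p_KKT (hPEN : S_PEN) :
    S_KKT := by
  intro d S D h u q m M hm ha hM hmM hq ho hc
  have hn : ∀ᵐ x, ∀ k < D.n, ev q 0 x ≠ D.th k ∧ -ev q 0 x ≠ D.th k := by
    by_cases hN : Nonconst q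
    · exact null_levels D hN
    · refine Eventually.of_forall fun x k hk => ?_
      have := hc.resolve_left hN k hk
      rw [(not_nonconst hN 0).1, ← (not_nonconst hN x).1] at this
      exact ⟨this.1, fun c => this.2 (neg_eq_iff_eq_neg.1 c)⟩
  obtain ⟨Z, mu, h1, h2, h3⟩ := kkt0 h (continuous_ev q 0) m M u.1 u.2 q hq hn
    (fun x _ hx => mul_self_pos.2 fun e => h.Qpos.ne (by rw [← hx, e, abs_zero])) fun f hf => by
      have := (hPEN d S D h m M u hm ha hM hmM).1 (q + f) fun x hx => by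
        rw [ev_add]; exact hf x hx
      rw [← ho, Bf_eq, Bf_eq, dot_add_left, funext (ev_add q f 0)] at this
      linarith
  exact ⟨Z, mu, h1, hm, hM, hmM, hq, h2, by rw [Yq_eq]; exact h3⟩

end Pool.Agent.P.MP_a0f0ad_al.Fi
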