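import Pool.Agent.P.MP_a0f0ad_al.Fi.V.Iface
import Pool.Agent.P.MP_a0f0ad_al.Fi.V.Vb

/-! Step PUB of the filiform project. -/

namespace Pool.Agent.P.MP_a0f0ad_al.Fi

open Finset MeasureTheory

namespace VB

theorem atom_cost {Q : ℝ} {Z : Finset ℝ} {mu φ : ℝ → ℝ}
    (h : ∀ z ∈ Z, |φ z| = Q ∧ 0 < mu z * φ z) : Q * ∑ z ∈ Z, |mu z| = ∑ z ∈ Z, mu z * φ z := by
  rw [mul_sum]
  refine sum_congr rfl fun z hz => ?_
  rw [← (h z hz).1, ← abs_mul, mul_comm, abs_of_pos (h z hz).2]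

/-- the value of a representation is its time -/
theorem rep_cost {d : ℕ} {D : LD d} {S : Finset (G d)} (h : D.Spec S) {u : E d} {ρ : RD d}
    (hρ : ρ.Rep D u) : D.Bf ρ.q ρ.m ρ.M u =
      Cf D (ev ρ.q 0) ρ.m ρ.M u.1 + D.Q * ∑ z ∈ ρ.Z, |ρ.mu z| := by
  obtain ⟨-, -, -, -, h1, h2⟩ := hρ
  rw [Bf_eq, h2, Yq_eq, dot_add_right, dot_Yv h (continuous_ev _ 0), dot_sum_right,
    Cf_eq h (continuous_ev _ 0), atom_cost fun z hz => (h1 z hz).2.2]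
  simp only [dot_smul_right, ev]
  ring

end VB

open VB in
theorem p_PUB (hPEN : S_PEN) :
    S_PUB := by
  intro d S D h u ρ ha hρ
  have e := rep_cost h hρ
  obtain ⟨hm, hM, hmM, hq, h1, h2⟩ := hρ
  refine ⟨le_antisymm ?_ ((hPEN d S D h _ _ u hm ha hM hmM).1 _ hq), ?_⟩
  · have := primal h (continuous_ev ρ.q 0) hm ha hM ρ.Z ρ.mu id
      fun z hz => ⟨(h1 z hz).1, (h1 z hz).2.1⟩
    simp only [id, ← Yq_eq, ← h2] at this
    rwa [e]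
  · have := Cf_nonneg h (continuous_ev ρ.q 0) hm ha hM
    linarith

end Pool.Agent.P.MP_a0f0ad_al.Fi
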