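import Pool.Agent.P.MP_a0f0ad_al.Fi.V.Iface
import Pool.Agent.P.MP_a0f0ad_al.Fi.V.Kkt
import Pool.Agent.P.MP_a0f0ad_al.Fi.V.Pub

/-! Step APR of the filiform project. -/

namespace Pool.Agent.P.MP_a0f0ad_al.Fi

open Finset MeasureTheory Filter Topology

namespace VB

variable {d : ℕ} {D : LD d} {S : Finset (G d)}

theorem ev_snoc (q : Fin d → ℝ) (c x : ℝ) :
    ev (Fin.snoc q c : Fin (d + 1) → ℝ) 0 x = ev q 0 x + c * x ^ d := by
  simp [ev0, Fin.sum_univ_castSucc]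

theorem P3_le {f g : ℝ → ℝ} (hf : II f) (hg : II g) {m M a B : ℝ} (hm : m ≤ 0) (ha : 0 ≤ a)
    (hM : a ≤ M) (hB : 0 ≤ B) (h1 : ∀ x ∈ Set.Icc m M, f x ≤ B)
    (h2 : ∀ x ∈ Set.Icc m M, g x ≤ B) : P3 f g m M a ≤ 2 * B * (M - m) := by
  have := P3_mono hf hg (II.of_cont (continuous_const (y := B)))
    (II.of_cont (continuous_const (y := B))) hm ha hM h1 h2
  rw [P3_const] at this
  nlinarith

theorem Jf_sub_le (h : D.Spec S) {C : ℝ} (hC : 0 ≤ C)
    (hl : ∀ u u', |D.lp u - D.lp u'| ≤ C * |u - u'|) {φ ψ : ℝ → ℝ} (hφ : Continuous φ)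
    (hψ : Continuous ψ) {m M a η : ℝ} (hm : m ≤ 0) (ha : 0 ≤ a) (hM : a ≤ M) (hη : 0 ≤ η)
    (H : ∀ x ∈ Set.Icc m M, |φ x - ψ x| ≤ η) :
    Jf D φ m M a ≤ Jf D ψ m M a + 2 * (C * η) * (M - m) := by
  have h1 := P3_le (II.sub (ii_lp h hφ) (ii_lp h hψ))
    (II.sub (ii_lp h hφ.fun_neg) (ii_lp h hψ.fun_neg)) hm ha hM (mul_nonneg hC hη)
    (fun x hx => (le_abs_self _).trans ((hl _ _).trans (mul_le_mul_of_nonneg_left (H x hx) hC)))
    fun x hx => (le_abs_self _).trans ((hl _ _).trans (mul_le_mul_of_nonneg_left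
      (by rw [neg_sub_neg, abs_sub_comm]; exact H x hx) hC))
  have h2 := P3_add (II.sub (ii_lp h hφ) (ii_lp h hψ))
    (II.sub (ii_lp h hφ.fun_neg) (ii_lp h hψ.fun_neg)) (ii_lp h hψ) (ii_lp h hψ.fun_neg) m M a
  simp only [sub_add_cancel] at h2
  unfold Jf
  linarith

theorem exists_max (hMARK : S_MARK) (h : D.Spec S) {ψ : ℝ → ℝ} (hψ : Continuous ψ) {m M : ℝ}
    (hmM : m < M) (a : ℝ) (y : Fin d → ℝ) (h0 : ∀ x ∈ Set.Icc m M, |ψ x| ≤ D.Q) :
    ∃ q, (∀ x ∈ Set.Icc m M, |ev q 0 x + ψ x| ≤ D.Q) ∧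
      ∀ r, (∀ x ∈ Set.Icc m M, |ev r 0 x + ψ x| ≤ D.Q) →
        dot r y + Jf D (fun x => ev r 0 x + ψ x) m M a ≤
          dot q y + Jf D (fun x => ev q 0 x + ψ x) m M a := by
  obtain ⟨C, -, hC⟩ := hMARK d (max |m| |M|)
  have hev : ∀ x, Continuous fun q : Fin d → ℝ => ev q 0 x := fun x =>
    (continuous_ev_uncurry 0).comp (Continuous.prodMk_left x)
  have hK : IsCompact {q : Fin d → ℝ | ∀ x ∈ Set.Icc m M, |ev q 0 x + ψ x| ≤ D.Q} := by
    refine Metric.isCompact_of_isClosed_isBounded ?_ ?_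
    · simp only [Set.ofPred_forall]
      exact isClosed_iInter fun x => isClosed_iInter fun _ =>
        isClosed_le ((hev x).add continuous_const).abs continuous_const
    · refine isBounded_iff_forall_norm_le.2 ⟨C * (2 * D.Q) / (M - m) ^ d, fun q hq => ?_⟩
      rw [le_div_iff₀ (pow_pos (sub_pos.2 hmM) d)]
      refine (hC q m M _ hmM (by linarith [neg_abs_le m, le_max_left |m| |M|])
        ((le_abs_self M).trans (le_max_right _ _)) fun x hx => ?_).1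
      have := abs_sub (ev q 0 x + ψ x) (ψ x)
      rw [add_sub_cancel_right] at this
      linarith [hq x hx, h0 x hx]
  have hu : Continuous fun z : (Fin d → ℝ) × ℝ => ev z.1 0 z.2 + ψ z.2 :=
    (continuous_ev_uncurry 0).add (hψ.comp continuous_snd)
  have i := fun (F : (Fin d → ℝ) → ℝ → ℝ) (hF : Continuous F.uncurry) s t =>
    intervalIntegral.continuous_parametric_intervalIntegral_of_continuous' (μ := volume) hF s t
  have i1 := i (fun r x => D.lp (ev r 0 x + ψ x)) (h.continuous_lp.comp hu)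
  have i2 := i (fun r x => D.lp (-(ev r 0 x + ψ x))) (h.continuous_lp.comp hu.fun_neg)
  have hc : Continuous fun r => dot r y + Jf D (fun x => ev r 0 x + ψ x) m M a :=
    Continuous.add (by unfold dot; fun_prop) (((i1 m M).add (i2 m 0)).add (i2 a M))
  obtain ⟨q, h1, h2⟩ := hK.exists_isMaxOn ⟨0, fun x hx => by simpa using h0 x hx⟩ hc.continuousOn
  exact ⟨q, h1, fun r hr => h2 hr⟩

end VB

open VB in
theorem p_APR (hMARK : S_MARK) (hPEN : S_PEN) :
    S_APR := by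
  intro d S D hd h u m M e hm ha hM hmM he
  obtain ⟨C, hC, hk, -, hl, -, hb, -⟩ := h.exists_bound
  have hC0 : 0 ≤ C := by linarith
  have hQ := h.Qpos
  have hP := (hPEN d S D h m M u hm ha hM hmM).1
  set Ψ := D.Psi m M u
  set l := M - m
  set Λ := l ^ d
  have hl0 : 0 < l := sub_pos.2 hmM
  have hΛ : 0 < Λ := pow_pos hl0 d
  have hx : ∀ x ∈ Set.Icc m M, |x ^ d| ≤ Λ := fun x hx => by
    rw [abs_pow]
    exact pow_le_pow_left₀ (abs_nonneg _)
      (abs_le.2 ⟨by linarith [hx.1, hl0], by linarith [hx.2, hl0]⟩) d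
  obtain ⟨η, h1, h2, h3⟩ : ∃ η : ℝ, 0 < η ∧ η < 1 ∧ (1 + η) * (Ψ + 4 * C * D.Q * l * η) +
      η * (2 * C * l) + η * (2 * C * D.Q * l) < (1 - η) * (Ψ + e) := by
    have a1 : ∀ᶠ η : ℝ in 𝓝 0, (1 + η) * (Ψ + 4 * C * D.Q * l * η) +
        η * (2 * C * l) + η * (2 * C * D.Q * l) < (1 - η) * (Ψ + e) :=
      ContinuousAt.eventually_lt (by fun_prop) (by fun_prop) (by simpa using he)
    obtain ⟨η, b1, b2, b3⟩ := ((eventually_mem_nhdsWithin (a := (0 : ℝ)) (s := Set.Ioi 0)).and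
      (nhdsWithin_le_nhds ((gt_mem_nhds one_pos).and a1))).exists
    exact ⟨η, b1, b2, b3⟩
  set ε := η * D.Q / Λ
  have hε : 0 < ε := by positivity
  have hψ : ∀ x ∈ Set.Icc m M, |ε * x ^ d| ≤ η * D.Q := fun x hx' => by
    rw [abs_mul, abs_of_pos hε, ← div_mul_cancel₀ (η * D.Q) hΛ.ne']
    exact mul_le_mul_of_nonneg_left (hx x hx') hε.le
  have hψc : Continuous fun x : ℝ => ε * x ^ d := by fun_prop
  obtain ⟨q, hq, ho⟩ := exists_max hMARK h hψc hmM u.1 u.2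
    fun x hx' => (hψ x hx').trans (by nlinarith)
  set φ := fun x => ev q 0 x + ε * x ^ d with hφ
  have hφc : Continuous φ := (continuous_ev q 0).add hψc
  have hN : Nonconst (Fin.snoc q ε : Fin (d + 1) → ℝ) := ⟨Fin.last d, hd, by simpa using hε.ne'⟩
  have eφ : ev (Fin.snoc q ε : Fin (d + 1) → ℝ) 0 = φ := funext (ev_snoc q ε)
  obtain ⟨Z, mu, c1, c2, c3⟩ := kkt0 h hφc m M u.1 u.2 q hq (eφ ▸ null_levels D hN)
    (fun x hx' e1 => by
      have a1 := (le_abs_self (φ x * (ε * x ^ d))).trans_eq (abs_mul _ _)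
      have a2 := mul_le_mul_of_nonneg_left (hψ x hx') hQ.le
      have a3 : φ x * φ x = D.Q * D.Q := by rw [← abs_mul_abs_self, e1]
      rw [e1] at a1
      rw [show ev q 0 x = φ x - ε * x ^ d by simp [φ]]
      nlinarith [mul_pos hQ hQ])
    fun f hf => by
      have e1 : ∀ x, ev (q + f) 0 x + ε * x ^ d = φ x + ev f 0 x := fun x => by
        rw [ev_add]; simp only [φ]; ring
      have := ho (q + f) fun x hx => by rw [e1]; exact hf x hx
      rw [dot_add_left, funext e1] at this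
      linarith
  refine ⟨Fin.snoc q ε, Z, mu, hN, eφ ▸ hq, c1.trans d.le_succ,
    fun z hz => ⟨(c2 z hz).1, (c2 z hz).2.1⟩, fun j => ?_, ?_⟩
  · rw [eφ, ← Yf_eq, congrFun c3 j]
    simp [Yv, Finset.sum_apply]
  rw [eφ]
  show Cf D φ m M u.1 + D.Q * ∑ z ∈ Z, |mu z| ≤ _
  -- the time against the perturbed dual value
  have t1 : dot q u.2 = Yf D φ (ev q 0) m M u.1 + ∑ z ∈ Z, mu z * ev q 0 z := by
    rw [c3, dot_add_right, dot_Yv h hφc, dot_sum_right]
    simp only [dot_smul_right, ev]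
  have t2 : Yf D φ φ m M u.1 =
      Yf D φ (ev q 0) m M u.1 + Yf D φ (fun x => ε * x ^ d) m M u.1 := by
    rw [Yf, Yf, Yf, ← P3_add (h.ii_kp hφc (continuous_ev q 0))
      (II.neg (h.ii_kp hφc.fun_neg (continuous_ev q 0))) (h.ii_kp hφc hψc)
      (II.neg (h.ii_kp hφc.fun_neg hψc))]
    simp only [← mul_add, ← neg_add, hφ]
  have t3 : Yf D φ (fun x => ε * x ^ d) m M u.1 ≤ 2 * (C * (η * D.Q)) * l := by
    have k : ∀ v, ∀ x ∈ Set.Icc m M, |D.kp v * (ε * x ^ d)| ≤ C * (η * D.Q) := fun v x hx => by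
      rw [abs_mul]; exact mul_le_mul (hk v) (hψ x hx) (abs_nonneg _) hC0
    exact P3_le (h.ii_kp hφc hψc) (II.neg (h.ii_kp hφc.fun_neg hψc)) hm ha hM (by positivity)
      (fun x hx => (le_abs_self _).trans (k _ x hx)) fun x hx => (neg_le_abs _).trans (k _ x hx)
  have t4 : D.Q * ∑ z ∈ Z, |mu z| ≤ ∑ z ∈ Z, mu z * ev q 0 z + η * (D.Q * ∑ z ∈ Z, |mu z|) := by
    conv_lhs => rw [atom_cost fun z hz => (c2 z hz).2.2]
    rw [mul_sum, mul_sum, ← sum_add_distrib]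
    refine sum_le_sum fun z hz => ?_
    have a1 := (le_abs_self (mu z * (ε * z ^ d))).trans_eq (abs_mul _ _)
    have a2 := mul_le_mul_of_nonneg_left (hψ z ⟨(c2 z hz).1, (c2 z hz).2.1⟩) (abs_nonneg (mu z))
    simp only [φ]
    nlinarith
  -- the perturbed dual value against the true one
  have s0 : 0 < 1 + η := by linarith
  have hq' : ∀ x ∈ Set.Icc m M, |ev q 0 x| ≤ (1 + η) * D.Q := fun x hx => by
    have := abs_sub (ev q 0 x + ε * x ^ d) (ε * x ^ d)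
    rw [add_sub_cancel_right] at this
    linarith [hq x hx, hψ x hx]
  have hs : ∀ x ∈ Set.Icc m M, |(1 + η)⁻¹ * ev q 0 x| ≤ D.Q := fun x hx => by
    rw [abs_mul, abs_of_pos (inv_pos.2 s0), inv_mul_le_iff₀ s0]; exact hq' x hx
  have t5 := hP ((1 + η)⁻¹ • q) fun x hx => by rw [ev_smul]; exact hs x hx
  rw [Bf_eq, dot_smul_left] at t5
  have t6 := Jf_sub_le h hC0 hl hφc (continuous_ev ((1 + η)⁻¹ • q) 0) hm ha hM
    (η := 2 * (η * D.Q)) (by positivity) fun x hx => by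
      rw [ev_smul, show φ x - (1 + η)⁻¹ * ev q 0 x = η * ((1 + η)⁻¹ * ev q 0 x) + ε * x ^ d by
        simp only [φ]; field_simp; ring]
      refine (abs_add_le _ _).trans ?_
      rw [abs_mul, abs_of_pos h1]
      linarith [mul_le_mul_of_nonneg_left (hs x hx) h1.le, hψ x hx]
  have t7 : -Jf D φ m M u.1 ≤ 2 * C * l := by
    have := P3_le (II.neg (ii_lp h hφc)) (II.neg (ii_lp h hφc.fun_neg)) hm ha hM hC0
      (fun x hx => (neg_le_abs _).trans (hb _ (by linarith [hq x hx])))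
      fun x hx => (neg_le_abs _).trans (hb _ (by rw [abs_neg]; linarith [hq x hx]))
    have e1 := P3_mul (-1) (fun x => D.lp (φ x)) (fun x => D.lp (-φ x)) m M u.1
    simp only [neg_mul, one_mul] at e1
    rwa [e1] at this
  have t8 := Cf_eq h hφc m M u.1
  have t9 := Cf_nonneg h hφc hm ha hM
  have u1 : dot q u.2 + (1 + η) * Jf D φ m M u.1 ≤ (1 + η) * (Ψ + 4 * C * D.Q * l * η) := by
    have := mul_le_mul_of_nonneg_left (add_le_add t5 t6) s0.le
    rw [show dot q u.2 = (1 + η) * ((1 + η)⁻¹ * dot q u.2) by field_simp]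
    nlinarith
  refine le_of_mul_le_mul_left ?_ (sub_pos.2 h2)
  nlinarith [mul_le_mul_of_nonneg_left t7 h1.le, mul_nonneg h1.le t9]

end Pool.Agent.P.MP_a0f0ad_al.Fi
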