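import Pool.Agent.P.MP_a0f0ad_al.Fi.V.Iface
import Pool.Agent.P.MP_a0f0ad_al.Fi.Z.Bl

/-! Step ATT of the filiform project. -/

namespace Pool.Agent.P.MP_a0f0ad_al.Fi

open Finset MeasureTheory Filter Topology

namespace AttA

variable {d : ℕ} {D : LD d} {S : Finset (G d)}

theorem cont_int {X : Type} [TopologicalSpace X] {f : X → ℝ → ℝ} (hf : Continuous f.uncurry)
    {a b : X → ℝ} (ha : Continuous a) (hb : Continuous b) :
    Continuous fun x => ∫ t in a x..b x, f x t := by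
  have h1 := intervalIntegral.continuous_parametric_intervalIntegral_of_continuous
    (μ := volume) (a₀ := 0) hf ha
  have h2 := intervalIntegral.continuous_parametric_intervalIntegral_of_continuous
    (μ := volume) (a₀ := 0) hf hb
  refine (h2.sub h1).congr fun x => ?_
  have hx : Continuous (f x) := hf.comp (Continuous.prodMk_right x)
  exact intervalIntegral.integral_interval_sub_left (hx.intervalIntegrable _ _)
    (hx.intervalIntegrable _ _)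

theorem cont_Bf (h : D.Spec S) (u : E d) :
    Continuous fun z : (Fin d → ℝ) × ℝ × ℝ => D.Bf z.1 z.2.1 z.2.2 u := by
  have e : Continuous fun w : ((Fin d → ℝ) × ℝ × ℝ) × ℝ => ev w.1.1 0 w.2 :=
    (continuous_ev_uncurry 0).comp (continuous_fst.fst.prodMk continuous_snd)
  have h1 : Continuous (Function.uncurry
      fun (z : (Fin d → ℝ) × ℝ × ℝ) (x : ℝ) => D.lp (ev z.1 0 x)) := h.continuous_lp.comp e
  have h2 : Continuous (Function.uncurry
      fun (z : (Fin d → ℝ) × ℝ × ℝ) (x : ℝ) => D.lp (-ev z.1 0 x)) := h.continuous_lp.comp e.neg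
  have h0 : Continuous fun z : (Fin d → ℝ) × ℝ × ℝ => dot z.1 u.2 := by
    unfold dot
    fun_prop
  unfold LD.Bf
  exact ((h0.add (cont_int h1 continuous_snd.fst continuous_snd.snd)).add
    (cont_int h2 continuous_snd.fst continuous_const)).add
    (cont_int h2 continuous_const continuous_snd.snd)

theorem feas_near (h : D.Spec S) {q : Fin d → ℝ} {m M s : ℝ} (hmM : m ≤ M) (hq : D.Feas q m M)
    (hs0 : 0 ≤ s) (hs : s < 1) :
    ∀ᶠ z : ℝ × ℝ in 𝓝 (m, M), D.Feas (s • q) z.1 z.2 := by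
  have hc : Continuous fun x => |ev (s • q) 0 x| :=
    ((continuous_ev_uncurry 0).comp (Continuous.prodMk_right (s • q))).abs
  have ho : IsOpen {x | |ev (s • q) 0 x| < D.Q} := isOpen_lt hc continuous_const
  have hin : ∀ x ∈ Set.Icc m M, x ∈ {x | |ev (s • q) 0 x| < D.Q} := fun x hx => by
    have := hq x hx
    have hQ := h.Qpos
    show |ev (s • q) 0 x| < D.Q
    rw [ev_smul, abs_mul, abs_of_nonneg hs0]
    nlinarith [abs_nonneg (ev q 0 x)]
  obtain ⟨e1, he1, h1⟩ := Metric.isOpen_iff.1 ho m (hin m ⟨le_rfl, hmM⟩)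
  obtain ⟨e2, he2, h2⟩ := Metric.isOpen_iff.1 ho M (hin M ⟨hmM, le_rfl⟩)
  have t1 : ∀ᶠ z : ℝ × ℝ in 𝓝 (m, M), m - e1 < z.1 :=
    continuous_fst.continuousAt.eventually (lt_mem_nhds (by simpa using he1))
  have t2 : ∀ᶠ z : ℝ × ℝ in 𝓝 (m, M), z.2 < M + e2 :=
    continuous_snd.continuousAt.eventually (gt_mem_nhds (by simpa using he2))
  filter_upwards [t1, t2] with z hz1 hz2 x hx
  refine le_of_lt ?_
  rcases lt_or_ge x m with hm | hm
  · refine h1 ?_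
    rw [Metric.mem_ball, Real.dist_eq, abs_lt]
    constructor <;> linarith [hx.1]
  · rcases le_or_gt x M with hM | hM
    · exact hin x ⟨hm, hM⟩
    · refine h2 ?_
      rw [Metric.mem_ball, Real.dist_eq, abs_lt]
      constructor <;> linarith [hx.2]

theorem lsc (hPEN : S_PEN) (h : D.Spec S) (u : E d) (hu : 0 ≤ u.1) :
    LowerSemicontinuousOn (fun z : ℝ × ℝ => D.Psi z.1 z.2 u)
      {z | z.1 ≤ 0 ∧ u.1 ≤ z.2 ∧ z.1 < z.2} := by
  rintro ⟨m, M⟩ ⟨hm, hM, hmM⟩ y hy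
  obtain ⟨q, hq, e⟩ := (hPEN d S D h m M u hm hu hM hmM).2 0 0 le_rfl
  simp only [zero_smul, sub_zero, Prod.mk.eta] at e
  have c1 : Continuous fun s : ℝ => D.Bf (s • q) m M u :=
    (cont_Bf h u).comp (f := fun s : ℝ => (s • q, m, M)) (by fun_prop)
  have t1 : ∀ᶠ s : ℝ in 𝓝 1, y < D.Bf (s • q) m M u :=
    c1.continuousAt.eventually (lt_mem_nhds (by simpa [e] using hy))
  have t2 : ∀ᶠ s : ℝ in 𝓝 1, 0 < s := lt_mem_nhds one_pos
  obtain ⟨s, hs, hy2, hs0⟩ : ∃ s : ℝ, s < 1 ∧ y < D.Bf (s • q) m M u ∧ 0 < s :=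
    ((frequently_lt_nhds (1 : ℝ)).and_eventually (t1.and t2)).exists
  have c2 : Continuous fun z : ℝ × ℝ => D.Bf (s • q) z.1 z.2 u :=
    (cont_Bf h u).comp (f := fun z : ℝ × ℝ => (s • q, z)) (by fun_prop)
  have t3 : ∀ᶠ z : ℝ × ℝ in 𝓝 (m, M), y < D.Bf (s • q) z.1 z.2 u :=
    c2.continuousAt.eventually (lt_mem_nhds hy2)
  filter_upwards [self_mem_nhdsWithin, mem_nhdsWithin_of_mem_nhds t3,
    mem_nhdsWithin_of_mem_nhds (feas_near h hmM.le hq hs0.le hs)] with z hz h1 h2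
  exact lt_of_lt_of_le h1 ((hPEN d S D h z.1 z.2 u hz.1 hu hz.2.1 hz.2.2).1 _ h2)

end AttA

theorem p_ATT (hMARK : S_MARK) (hPEN : S_PEN) (hHOM : S_HOM) :
    S_ATT := by
  intro d S D h u hu hl
  obtain ⟨-, -, h3, -, h5⟩ := hHOM d S D h
  obtain ⟨c, hc, h5⟩ := h5 (D.NN u + 1)
  have hp := h.lp_zero_pos
  set R : ℝ := (D.NN u + 1) / D.lp 0 with hR
  set K : Set (ℝ × ℝ) := (Set.Icc (-R) 0 ×ˢ Set.Icc u.1 R) ∩ {z | c * ell u ≤ z.2 - z.1} with hK
  have hKc : IsCompact K :=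
    (isCompact_Icc.prod isCompact_Icc).inter_right (isClosed_le continuous_const (by fun_prop))
  have hcl : 0 < c * ell u := mul_pos hc hl
  have hsub : K ⊆ {z | z.1 ≤ 0 ∧ u.1 ≤ z.2 ∧ z.1 < z.2} := fun z hz =>
    ⟨hz.1.1.2, hz.1.2.1, by have : c * ell u ≤ z.2 - z.1 := hz.2
                            linarith⟩
  have hin : ∀ m M, m ≤ 0 → u.1 ≤ M → m < M → D.Psi m M u ≤ D.NN u + 1 → (m, M) ∈ K := by
    intro m M hm hM hmM hP
    have h1 : M - m ≤ R := by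
      rw [hR, le_div_iff₀ hp, mul_comm]
      exact (h3 u m M hm hu hM hmM).2.trans hP
    exact ⟨⟨⟨by linarith, hm⟩, hM, by linarith⟩, h5 u m M hm hu hM hmM hP⟩
  have hne : {r | ∃ m M, m ≤ 0 ∧ u.1 ≤ M ∧ m < M ∧ r = D.Psi m M u}.Nonempty :=
    ⟨_, -1, u.1, by norm_num, le_rfl, by linarith, rfl⟩
  obtain ⟨r, ⟨m0, M0, hm0, hM0, hmM0, rfl⟩, hr⟩ :=
    exists_lt_of_csInf_lt hne (lt_add_one (D.NN u))
  have hK0 := hin m0 M0 hm0 hM0 hmM0 hr.le
  obtain ⟨z, hz, hmin⟩ := ((AttA.lsc hPEN h u hu).mono hsub).exists_isMinOn ⟨_, hK0⟩ hKc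
  obtain ⟨hz1, hz2, hz3⟩ := hsub hz
  refine ⟨z.1, z.2, hz1, hz2, hz3, le_antisymm ?_ (h3 u z.1 z.2 hz1 hu hz2 hz3).1⟩
  refine le_csInf hne ?_
  rintro _ ⟨m, M, hm, hM, hmM, rfl⟩
  rcases le_or_gt (D.Psi m M u) (D.NN u + 1) with hP | hP
  · exact hmin (hin m M hm hM hmM hP)
  · exact (le_trans (hmin hK0) hr.le).trans hP.le

end Pool.Agent.P.MP_a0f0ad_al.Fi
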