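import Pool.Agent.P.MP_a0f0ad_al.Fi.V.Iface
import Pool.Agent.P.MP_a0f0ad_al.Fi.V.Vb

/-! Step HOM of the filiform project. -/

namespace Pool.Agent.P.MP_a0f0ad_al.Fi

open Finset MeasureTheory
open scoped Pointwise

namespace HomA

variable {d : ℕ} {D : LD d} {S : Finset (G d)}

/-- rescaled coefficients -/
noncomputable def sc (l : ℝ) (q : Fin d → ℝ) : Fin d → ℝ := fun j => q j / l ^ (j : ℕ)

theorem ev_sc {l : ℝ} (hl : 0 < l) (q : Fin d → ℝ) (x : ℝ) :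
    ev (sc l q) 0 (l * x) = ev q 0 x := by
  rw [VB.ev0, VB.ev0]
  refine sum_congr rfl fun j _ => ?_
  rw [sc, mul_pow]
  field_simp

theorem sc_inv {l : ℝ} (hl : 0 < l) (q : Fin d → ℝ) : sc l (sc l⁻¹ q) = q := by
  funext j
  simp only [sc, inv_pow]
  field_simp

theorem feas_sc {l : ℝ} (hl : 0 < l) {q : Fin d → ℝ} {m M : ℝ} (h : D.Feas q m M) :
    D.Feas (sc l q) (l * m) (l * M) := by
  intro x hx
  have e : x = l * (x / l) := by field_simp
  rw [e, ev_sc hl]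
  refine h _ ⟨?_, ?_⟩
  · rw [le_div_iff₀ hl]; linarith [hx.1]
  · rw [div_le_iff₀ hl]; linarith [hx.2]

theorem Bf_sc {l : ℝ} (hl : 0 < l) (q : Fin d → ℝ) (m M : ℝ) (u : E d) :
    D.Bf (sc l q) (l * m) (l * M) (dil l u) = l * D.Bf q m M u := by
  have h0 : dot (sc l q) (dil l u).2 = l * dot q u.2 := by
    simp only [dot, dil, sc, mul_sum]
    refine sum_congr rfl fun j _ => ?_
    rw [pow_succ]
    field_simp
  have h1 : ∀ (F : ℝ → ℝ) (s t : ℝ), ∫ x in l * s..l * t, F (ev (sc l q) 0 x) =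
      l * ∫ x in s..t, F (ev q 0 x) := by
    intro F s t
    rw [← intervalIntegral.mul_integral_comp_mul_left (f := fun x => F (ev (sc l q) 0 x))]
    simp only [ev_sc hl]
  have h2 := h1 (fun y => D.lp (-y)) m 0
  rw [mul_zero] at h2
  have h3 : (dil l u).1 = l * u.1 := rfl
  rw [LD.Bf, LD.Bf, h0, h3, h1 D.lp, h2, h1 (fun y => D.lp (-y))]
  ring

theorem Psi_sc {l : ℝ} (hl : 0 < l) (m M : ℝ) (u : E d) :
    D.Psi (l * m) (l * M) (dil l u) = l * D.Psi m M u := by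
  rw [LD.Psi, LD.Psi, ← smul_eq_mul l (sSup _), ← Real.sSup_smul_of_nonneg hl.le]
  congr 1
  ext r
  rw [Set.mem_smul_set]
  constructor
  · rintro ⟨q, hq, rfl⟩
    have h1 := feas_sc (inv_pos.2 hl) hq
    rw [inv_mul_cancel_left₀ hl.ne', inv_mul_cancel_left₀ hl.ne'] at h1
    refine ⟨_, ⟨_, h1, rfl⟩, ?_⟩
    rw [smul_eq_mul, ← Bf_sc hl, sc_inv hl]
  · rintro ⟨_, ⟨q, hq, rfl⟩, rfl⟩
    exact ⟨_, feas_sc hl hq, by rw [smul_eq_mul, Bf_sc hl]⟩

theorem NN_dil {l : ℝ} (hl : 0 < l) (u : E d) : D.NN (dil l u) = l * D.NN u := by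
  rw [LD.NN, LD.NN, ← smul_eq_mul l (sInf _), ← Real.sInf_smul_of_nonneg hl.le]
  congr 1
  ext r
  rw [Set.mem_smul_set]
  have h3 : (dil l u).1 = l * u.1 := rfl
  constructor
  · rintro ⟨m, M, hm, hM, hmM, rfl⟩
    rw [h3] at hM
    refine ⟨_, ⟨m / l, M / l, div_nonpos_of_nonpos_of_nonneg hm hl.le, ?_,
      div_lt_div_of_pos_right hmM hl, rfl⟩, ?_⟩
    · rw [le_div_iff₀ hl]; linarith
    · rw [smul_eq_mul, ← Psi_sc hl, mul_div_cancel₀ _ hl.ne', mul_div_cancel₀ _ hl.ne']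
  · rintro ⟨_, ⟨m, M, hm, hM, hmM, rfl⟩, rfl⟩
    refine ⟨l * m, l * M, mul_nonpos_of_nonneg_of_nonpos hl.le hm, ?_,
      mul_lt_mul_of_pos_left hmM hl, by rw [smul_eq_mul, Psi_sc hl]⟩
    rw [h3]
    exact mul_le_mul_of_nonneg_left hM hl.le

theorem low (hPEN : S_PEN) (h : D.Spec S) {u : E d} {m M : ℝ} (hm : m ≤ 0) (ha : 0 ≤ u.1)
    (hM : u.1 ≤ M) (hmM : m < M) : D.lp 0 * (M - m) ≤ D.Psi m M u := by
  refine le_trans ?_ ((hPEN d S D h m M u hm ha hM hmM).1 0 (VB.feas_zero h m M))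
  rw [VB.Bf_eq, VB.Jf]
  simp only [ev_zero, neg_zero, dot_zero_left, zero_add]
  rw [VB.P3_const]
  have := mul_nonneg h.lp_zero_pos.le (show 0 ≤ M - u.1 - m by linarith)
  linarith

theorem low0 (hPEN : S_PEN) (h : D.Spec S) {u : E d} {m M : ℝ} (hm : m ≤ 0) (ha : 0 ≤ u.1)
    (hM : u.1 ≤ M) (hmM : m < M) : 0 ≤ D.Psi m M u :=
  (mul_nonneg h.lp_zero_pos.le (by linarith)).trans (low hPEN h hm ha hM hmM)

theorem key (hPEN : S_PEN) (h : D.Spec S) {C : ℝ} (hC0 : 0 ≤ C)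
    (hC : ∀ u, |u| ≤ D.Q + 1 → |D.lp u| ≤ C) {u : E d} {m M B : ℝ} (hm : m ≤ 0) (ha : 0 ≤ u.1)
    (hM : u.1 ≤ M) (hmM : m < M) (hB : D.Psi m M u ≤ B) (j : Fin d) :
    |u.2 j| ≤ (B + 2 * C * (M - m)) / D.Q * (M - m) ^ (j : ℕ) := by
  have hR : 0 < M - m := by linarith
  have hRj : 0 < (M - m) ^ (j : ℕ) := pow_pos hR _
  have hQ := h.Qpos
  have main : ∀ s : ℝ, |s| = 1 →
      s * D.Q / (M - m) ^ (j : ℕ) * u.2 j ≤ B + 2 * C * (M - m) := by
    intro s hs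
    have hf : D.Feas (Pi.single j (s * D.Q / (M - m) ^ (j : ℕ))) m M := by
      intro x hx
      have hx' : |x| ≤ M - m := abs_le.2 ⟨by linarith [hx.1], by linarith [hx.2]⟩
      rw [VB.ev_single, abs_mul, abs_div, abs_mul, hs, one_mul, abs_of_pos hQ, abs_of_pos hRj,
        abs_pow, div_mul_eq_mul_div, div_le_iff₀ hRj]
      exact mul_le_mul_of_nonneg_left (pow_le_pow_left₀ (abs_nonneg _) hx' _) hQ.le
    have h1 := ((hPEN d S D h m M u hm ha hM hmM).1 _ hf).trans hB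
    rw [VB.Bf_eq, VB.single_dot, VB.Jf] at h1
    have hc := continuous_ev (Pi.single j (s * D.Q / (M - m) ^ (j : ℕ)) : Fin d → ℝ) 0
    have h2 := VB.P3_mono (VB.II.of_cont (continuous_const (y := -C)))
      (VB.II.of_cont (continuous_const (y := -C))) (VB.ii_lp h hc) (VB.ii_lp h hc.fun_neg)
      hm ha hM (fun x hx => (abs_le.1 (hC _ (by linarith [hf x hx]))).1)
      (fun x hx => (abs_le.1 (hC _ (by rw [abs_neg]; linarith [hf x hx]))).1)
    rw [VB.P3_const] at h2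
    have h3 := mul_nonneg hC0 ha
    nlinarith
  rw [div_mul_eq_mul_div, le_div_iff₀ hQ]
  have h4 : D.Q / (M - m) ^ (j : ℕ) * |u.2 j| ≤ B + 2 * C * (M - m) := by
    rcases abs_cases (u.2 j) with h5 | h5
    · have := main 1 abs_one
      rw [one_mul] at this
      rwa [h5.1]
    · have := main (-1) (by simp)
      rw [h5.1]
      refine le_trans (le_of_eq ?_) this
      ring
  rw [div_mul_eq_mul_div, div_le_iff₀ hRj] at h4
  linarith

end HomA

open HomA in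
theorem p_HOM (hMARK : S_MARK) (hPEN : S_PEN) :
    S_HOM := by
  intro d S D h
  obtain ⟨C, hC1, -, -, -, -, hC, -⟩ := h.exists_bound
  have hC0 : 0 ≤ C := by linarith
  have hp := h.lp_zero_pos
  have hQ := h.Qpos
  have hbdd : ∀ u : E d, 0 ≤ u.1 →
      ∀ r ∈ {r | ∃ m M, m ≤ 0 ∧ u.1 ≤ M ∧ m < M ∧ r = D.Psi m M u}, 0 ≤ r := by
    rintro u ha _ ⟨m, M, hm, hM, hmM, rfl⟩
    exact low0 hPEN h hm ha hM hmM
  refine ⟨fun l u hl _ => NN_dil hl u, fun u ha => Real.sInf_nonneg (hbdd u ha),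
    fun u m M hm ha hM hmM => ⟨csInf_le ⟨0, hbdd u ha⟩ ⟨m, M, hm, hM, hmM, rfl⟩,
      low hPEN h hm ha hM hmM⟩, ?_, ?_⟩
  · refine ⟨max (3 / D.lp 0) ((3 + 2 * C * (3 / D.lp 0)) / D.Q * (max 1 (3 / D.lp 0)) ^ d),
      fun u ha hu => ?_⟩
    obtain ⟨_, ⟨m, M, hm, hM, hmM, rfl⟩, hlt⟩ := exists_lt_of_csInf_lt
      (s := {r | ∃ m M, m ≤ 0 ∧ u.1 ≤ M ∧ m < M ∧ r = D.Psi m M u}) (b := 3)
      ⟨_, -1, u.1, by norm_num, le_rfl, by linarith, rfl⟩ (lt_of_le_of_lt hu (by norm_num))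
    have hR : M - m ≤ 3 / D.lp 0 := by
      rw [le_div_iff₀ hp]
      linarith [low hPEN h hm ha hM hmM]
    have hR0 : 0 < M - m := by linarith
    rw [Prod.norm_def]
    refine max_le_max ?_ ?_
    · rw [Real.norm_eq_abs, abs_of_nonneg ha]; linarith
    · refine (pi_norm_le_iff_of_nonneg (by positivity)).2 fun j => ?_
      rw [Real.norm_eq_abs]
      refine (key hPEN h hC0 hC hm ha hM hmM hlt.le j).trans ?_
      refine mul_le_mul (div_le_div_of_nonneg_right ?_ hQ.le) ?_ (by positivity) (by positivity)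
      · have := mul_le_mul_of_nonneg_left hR (show 0 ≤ 2 * C by linarith)
        linarith
      · exact (pow_le_pow_left₀ hR0.le (hR.trans (le_max_right _ _)) _).trans
          (pow_le_pow_right₀ (le_max_left _ _) j.2.le)
  · intro B
    obtain ⟨K, hK⟩ : ∃ K : ℝ, K = max 1 ((B + 2 * C * (B / D.lp 0)) / D.Q) := ⟨_, rfl⟩
    have hK1 : 1 ≤ K := hK ▸ le_max_left _ _
    have hK2 : (B + 2 * C * (B / D.lp 0)) / D.Q ≤ K := hK ▸ le_max_right _ _
    have hK0 : 0 < K := by linarith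
    refine ⟨K⁻¹, inv_pos.2 hK0, fun u m M hm ha hM hmM hB => ?_⟩
    have hR : M - m ≤ B / D.lp 0 := by
      rw [le_div_iff₀ hp]
      linarith [low hPEN h hm ha hM hmM]
    have hR0 : 0 < M - m := by linarith
    rw [inv_mul_le_iff₀ hK0]
    have hKR : M - m ≤ K * (M - m) := le_mul_of_one_le_left hR0.le hK1
    refine max_le ?_ (Real.iSup_le (fun j => ?_) (by positivity))
    · rw [abs_of_nonneg ha]; linarith
    · split_ifs with hj
      · positivity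
      · have h1 : |u.2 j| ≤ (K * (M - m)) ^ (j : ℕ) := by
          refine (key hPEN h hC0 hC hm ha hM hmM hB j).trans ?_
          rw [mul_pow]
          refine mul_le_mul_of_nonneg_right ?_ (by positivity)
          refine le_trans (le_trans (div_le_div_of_nonneg_right ?_ hQ.le) hK2)
            (le_self_pow₀ hK1 hj)
          have := mul_le_mul_of_nonneg_left hR (show 0 ≤ 2 * C by linarith)
          linarith
        have h2 := Real.rpow_le_rpow (abs_nonneg _) h1 (z := ((j : ℕ) : ℝ)⁻¹) (by positivity)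
        rwa [Real.pow_rpow_inv_natCast (by positivity) hj] at h2

end Pool.Agent.P.MP_a0f0ad_al.Fi
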