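import Pool.Agent.P.MP_a0f0ad_al.Fi.V.Iface
import Pool.Agent.P.MP_a0f0ad_al.Fi.Z.Bg

/-! Step LDX of the filiform project. -/

namespace Pool.Agent.P.MP_a0f0ad_al.Fi

open Finset MeasureTheory

namespace LdxA

open scoped Classical

noncomputable def ix (n : ℕ) (th : ℕ → ℝ) (u : ℝ) : ℕ := ((range n).filter fun k => th k < u).card

theorem ix_le (n : ℕ) (th : ℕ → ℝ) (u : ℝ) : ix n th u ≤ n :=
  (Finset.card_filter_le _ _).trans (by simp)

theorem ix_zero {n : ℕ} {th : ℕ → ℝ} {u : ℝ} (h : ∀ i < n, u ≤ th i) : ix n th u = 0 := by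
  unfold ix
  rw [Finset.card_eq_zero, Finset.filter_eq_empty_iff]
  intro i hi
  exact not_lt.2 (h i (mem_range.1 hi))

theorem ix_succ {n : ℕ} {th : ℕ → ℝ} {u : ℝ} (h : th 0 < u) :
    ix (n + 1) th u = ix n (fun i => th (i + 1)) u + 1 := by
  unfold ix
  rw [Finset.card_filter, Finset.card_filter, Finset.sum_range_succ', if_pos h]

/-- the lower envelope of finitely many lines -/
theorem env {ι : Type} (c k : ι → ℝ) (hi : ℝ) (N : ℕ) :
    ∀ U : Finset ι, U.card ≤ N → U.Nonempty → ∀ lo, lo < hi →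
    ∃ (n : ℕ) (A : ℕ → ι) (th : ℕ → ℝ), (∀ i ≤ n, A i ∈ U) ∧ (∀ i < n, lo < th i ∧ th i < hi) ∧
      (∀ i, i + 1 < n → th i < th (i + 1)) ∧ (∀ i < n, k (A i) < k (A (i + 1))) ∧
      (∀ i < n, c (A i) - k (A i) * th i = c (A (i + 1)) - k (A (i + 1)) * th i) ∧
      ∀ u, lo ≤ u → u ≤ hi → ∀ s ∈ U,
        c (A (ix n th u)) - k (A (ix n th u)) * u ≤ c s - k s * u := by
  induction N with
  | zero =>
    intro U hU hne
    have := hne.card_pos
    omega
  | succ N ih =>
    intro U hU hne lo hlo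
    obtain ⟨s', hs', hmin⟩ := U.exists_min_image (fun s => c s - k s * lo) hne
    obtain ⟨s0, hs0, hmax⟩ := (U.filter fun s => ∀ r ∈ U, c s - k s * lo ≤ c r - k r * lo).exists_max_image
      k ⟨s', mem_filter.2 ⟨hs', hmin⟩⟩
    obtain ⟨hs0U, ha⟩ := mem_filter.1 hs0
    have hb : ∀ s ∈ U, k s0 < k s → c s0 - k s0 * lo < c s - k s * lo := by
      intro s hs hk
      refine lt_of_le_of_ne (ha s hs) fun h => ?_
      exact absurd (hmax s (mem_filter.2 ⟨hs, fun r hr => h ▸ ha r hr⟩)) (not_le.2 hk)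
    have hc : ∀ s ∈ U, k s ≤ k s0 → ∀ u, lo ≤ u → c s0 - k s0 * u ≤ c s - k s * u := by
      intro s hs hk u hu
      nlinarith [ha s hs, mul_nonneg (sub_nonneg.2 hk) (sub_nonneg.2 hu)]
    by_cases hA : ∀ s ∈ U, k s0 < k s → c s0 - k s0 * hi ≤ c s - k s * hi
    · refine ⟨0, fun _ => s0, fun _ => 0, fun _ _ => hs0U, by simp, by simp, by simp, by simp, ?_⟩
      intro u hu hu' s hs
      rcases le_or_gt (k s) (k s0) with hk | hk
      · exact hc s hs hk u hu
      · nlinarith [hA s hs hk, mul_nonneg (sub_nonneg.2 hk.le) (sub_nonneg.2 hu')]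
    · push Not at hA
      obtain ⟨s1, hs1, hk1, hl1⟩ := hA
      set U2 := U.filter fun s => k s0 < k s with hU2
      have hne2 : U2.Nonempty := ⟨s1, mem_filter.2 ⟨hs1, hk1⟩⟩
      have hcard : U2.card ≤ N := by
        have : U2.card < U.card := Finset.card_lt_card
          ⟨Finset.filter_subset _ _, fun h => lt_irrefl _ (mem_filter.1 (h hs0U)).2⟩
        omega
      obtain ⟨s2, hs2, hx⟩ := U2.exists_min_image (fun s => (c s - c s0) / (k s - k s0)) hne2
      set t := (c s2 - c s0) / (k s2 - k s0) with ht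
      obtain ⟨hs2U, hk2⟩ := mem_filter.1 hs2
      have e2 : t * (k s2 - k s0) = c s2 - c s0 := div_mul_cancel₀ _ (sub_pos.2 hk2).ne'
      have hge : ∀ s ∈ U2, t * (k s - k s0) ≤ c s - c s0 := fun s hs =>
        (le_div_iff₀ (sub_pos.2 (mem_filter.1 hs).2)).1 (hx s hs)
      have hlot : lo < t := by
        have := hb s2 hs2U hk2
        by_contra h
        nlinarith [mul_nonneg (sub_nonneg.2 (not_lt.1 h)) (sub_pos.2 hk2).le]
      have hthi : t < hi := by
        have := hge s1 (mem_filter.2 ⟨hs1, hk1⟩)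
        by_contra h
        nlinarith [mul_nonneg (sub_nonneg.2 (not_lt.1 h)) (sub_pos.2 hk1).le]
      obtain ⟨n, A, th, h1, h2, h3, h4, h5, h6⟩ := ih U2 hcard hne2 t hthi
      have hA0 := h1 0 (Nat.zero_le _)
      refine ⟨n + 1, fun i => Nat.casesOn i s0 A, fun i => Nat.casesOn i t th, ?_, ?_, ?_, ?_, ?_,
        ?_⟩
      · rintro (_ | i) h
        · exact hs0U
        · exact (mem_filter.1 (h1 i (by omega))).1
      · rintro (_ | i) h
        · exact ⟨hlot, hthi⟩
        · exact ⟨hlot.trans (h2 i (by omega)).1, (h2 i (by omega)).2⟩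
      · rintro (_ | i) h
        · exact (h2 0 (by omega)).1
        · exact h3 i (by omega)
      · rintro (_ | i) h
        · exact (mem_filter.1 hA0).2
        · exact h4 i (by omega)
      · rintro (_ | i) h
        · have h7 := h6 t le_rfl hthi.le s2 hs2
          rw [ix_zero fun i hi => (h2 i hi).1.le] at h7
          have h8 := hge _ hA0
          show c s0 - k s0 * t = c (A 0) - k (A 0) * t
          linarith
        · exact h5 i (by omega)
      · intro u hu hu' s hs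
        rcases le_or_gt u t with hut | hut
        · rw [ix_zero]
          · show c s0 - k s0 * u ≤ _
            rcases le_or_gt (k s) (k s0) with hk | hk
            · exact hc s hs hk u hu
            · nlinarith [hge s (mem_filter.2 ⟨hs, hk⟩),
                mul_nonneg (sub_nonneg.2 hut) (sub_pos.2 hk).le]
          · rintro (_ | i) h
            · exact hut
            · exact hut.trans (h2 i (by omega)).1.le
        · rw [ix_succ hut]
          show c (A (ix n th u)) - k (A (ix n th u)) * u ≤ _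
          rcases le_or_gt (k s) (k s0) with hk | hk
          · have h7 := h6 u hut.le hu' s2 hs2
            have h8 := hc s hs hk u hu
            nlinarith [mul_nonneg (sub_nonneg.2 hut.le) (sub_pos.2 hk2).le]
          · exact h6 u hut.le hu' s (mem_filter.2 ⟨hs, hk⟩)

variable {d : ℕ}

/-- the polar polygon -/
def PP (S : Finset (G d)) : Set (ℝ × ℝ) := {z | ∀ s ∈ S, (s.a : ℝ) * z.1 + (s.b : ℝ) * z.2 ≤ 1}

theorem abs_le_of_PP {S : Finset (G d)} (hS : Sym S) {z : ℝ × ℝ} (hz : z ∈ PP S) {s : G d}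
    (hs : s ∈ S) : |(s.a : ℝ) * z.1 + (s.b : ℝ) * z.2| ≤ 1 := by
  have h1 := hz s hs
  have h2 := hz _ (hS.2.1 s hs)
  rw [G.inv_a, G.inv_b] at h2
  push_cast at h2
  rw [abs_le]
  constructor <;> linarith

theorem bound {S : Finset (G d)} (hS : Sym S) (g : G d) :
    ∃ C : ℝ, ∀ z ∈ PP S, |(g.a : ℝ) * z.1 + (g.b : ℝ) * z.2| ≤ C := by
  obtain ⟨w, hw, rfl⟩ := hS.exists_wd g
  induction w with
  | nil => exact ⟨0, fun z _ => by simp⟩
  | cons s w ih =>
    obtain ⟨C, hC⟩ := ih fun t ht => hw t (List.mem_cons_of_mem _ ht)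
    refine ⟨1 + C, fun z hz => ?_⟩
    have h1 := abs_le_of_PP hS hz (hw s List.mem_cons_self)
    have h2 := hC z hz
    rw [List.prod_cons, G.mul_a, G.mul_b]
    push_cast
    rw [abs_le] at h1 h2 ⊢
    constructor <;> linarith [h1.1, h1.2, h2.1, h2.2]

theorem bound2 (hd : 2 ≤ d) {S : Finset (G d)} (hS : Sym S) :
    ∃ C : ℝ, ∀ z ∈ PP S, |z.1| ≤ C ∧ |z.2| ≤ C := by
  obtain ⟨C1, h1⟩ := bound hS ⟨0, 1⟩
  obtain ⟨C2, h2⟩ := bound hS ⟨fun _ => 1, 0⟩
  refine ⟨max C1 C2, fun z hz => ⟨le_max_of_le_left ?_, le_max_of_le_right ?_⟩⟩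
  · simpa [G.b, co_zero] using h1 z hz
  · simpa [G.b, co, (by omega : 0 < d)] using h2 z hz

theorem compact (hd : 2 ≤ d) {S : Finset (G d)} (hS : Sym S) : IsCompact (PP S) := by
  obtain ⟨C, hC⟩ := bound2 hd hS
  refine Metric.isCompact_of_isClosed_isBounded ?_ ?_
  · have : PP S = ⋂ s ∈ S, {z : ℝ × ℝ | (s.a : ℝ) * z.1 + (s.b : ℝ) * z.2 ≤ 1} := by
      ext z; simp [PP]
    rw [this]
    exact isClosed_biInter fun s _ => isClosed_le (by fun_prop) continuous_const
  · refine (Metric.isBounded_iff_subset_closedBall 0).2 ⟨C, fun z hz => ?_⟩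
    rw [mem_closedBall_zero_iff, Prod.norm_def]
    exact max_le (hC z hz).1 (hC z hz).2

/-- strict inequalities persist when the point is pushed outwards -/
theorem push {S : Finset (G d)} (x u x' u' : ℝ) (h : ∀ s ∈ S, (s.a : ℝ) * x + (s.b : ℝ) * u < 1) :
    ∃ t : ℝ, 0 < t ∧ (x + t * x', u + t * u') ∈ PP S := by
  have h1 : ∀ᶠ t in nhds (0 : ℝ), ∀ s ∈ S,
      (s.a : ℝ) * (x + t * x') + (s.b : ℝ) * (u + t * u') < 1 := by
    rw [Filter.eventually_all_finset]
    intro s hs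
    have hc : Continuous fun t : ℝ => (s.a : ℝ) * (x + t * x') + (s.b : ℝ) * (u + t * u') := by
      fun_prop
    exact hc.continuousAt.eventually_lt continuousAt_const (by simpa using h s hs)
  obtain ⟨t, ht, ht0⟩ := ((h1.filter_mono nhdsWithin_le_nhds).and
    (self_mem_nhdsWithin (s := Set.Ioi (0 : ℝ)))).exists
  exact ⟨t, ht0, fun s hs => (ht s hs).le⟩

theorem ix_loc (n : ℕ) (th : ℕ → ℝ) (u : ℝ) (h : ∀ k < n, u ≠ th k) :
    ∀ᶠ v in nhds u, ix n th v = ix n th u := by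
  have h1 : ∀ᶠ v in nhds u, ∀ k ∈ range n, (th k < v ↔ th k < u) := by
    rw [Filter.eventually_all_finset]
    intro k hk
    rcases lt_or_gt_of_ne (h k (mem_range.1 hk)) with h2 | h2
    · filter_upwards [Iio_mem_nhds h2] with v hv
      exact iff_of_false (not_lt.2 (le_of_lt hv)) (not_lt.2 h2.le)
    · filter_upwards [Ioi_mem_nhds h2] with v hv
      exact iff_of_true hv h2
  filter_upwards [h1] with v hv
  unfold ix
  rw [Finset.filter_congr hv]

theorem line_eq {a : ℤ} (ha : 0 < a) (b : ℤ) (u : ℝ) :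
    (1 - (b : ℝ) * u) / a = 1 / (a : ℝ) - (b : ℝ) / a * u := by
  have : (a : ℝ) ≠ 0 := by exact_mod_cast ha.ne'
  field_simp

end LdxA

open LdxA in
theorem p_LDX :
    S_LDX := by
  classical
  intro d S hd hS
  obtain ⟨z0, hz0, hmax⟩ := (compact hd hS).exists_isMaxOn ⟨(0, 0), fun s _ => by simp⟩
    continuous_snd.continuousOn
  obtain ⟨x0, Q⟩ := z0
  have hmax' : ∀ z ∈ PP S, z.2 ≤ Q := fun z hz => hmax hz
  have hQ : 0 < Q := by
    obtain ⟨t, ht, h⟩ := push (S := S) 0 0 0 1 (fun s _ => by simp)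
    have := hmax' _ h
    simp only at this
    linarith
  have hU : (S.filter fun s => 0 < s.a).Nonempty := by
    by_contra hn
    obtain ⟨C, hC⟩ := bound2 hd hS
    have h1 : ((|C| + 1, 0) : ℝ × ℝ) ∈ PP S := by
      intro s hs
      have h2 : ¬ 0 < s.a := fun h => hn ⟨s, mem_filter.2 ⟨hs, h⟩⟩
      have h3 : (s.a : ℝ) ≤ 0 := by exact_mod_cast not_lt.1 h2
      nlinarith [abs_nonneg C]
    have := (hC _ h1).1
    linarith [le_abs_self C, le_abs_self (|C| + 1)]
  obtain ⟨n, A, th, h1, h2, h3, h4, h5, h6⟩ := env (fun s : G d => 1 / (s.a : ℝ))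
    (fun s => (s.b : ℝ) / s.a) Q _ _ le_rfl hU (-Q) (by linarith)
  obtain ⟨C, hC⟩ : ∃ C : G d, (∃ s ∈ S, s.a = 0 ∧ Q * (s.b : ℝ) = 1) →
      C ∈ S ∧ C.a = 0 ∧ Q * (C.b : ℝ) = 1 := by
    by_cases h : ∃ s ∈ S, s.a = 0 ∧ Q * (s.b : ℝ) = 1
    · obtain ⟨s, hs⟩ := h
      exact ⟨s, fun _ => hs⟩
    · exact ⟨1, fun h' => absurd h' h⟩
  have hA : ∀ k ≤ n, A k ∈ S ∧ 0 < (A k).a := fun k hk => mem_filter.1 (h1 k hk)
  set D : LD d := ⟨n, A, th, Q, C⟩ with hD
  have hidx : ∀ u, D.idx u = ix n th u := fun u => rfl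
  have hlp : ∀ u, D.lp u = (1 - ((A (ix n th u)).b : ℝ) * u) / (A (ix n th u)).a := fun u => rfl
  have hAi : ∀ u, (0 : ℝ) < (A (ix n th u)).a := fun u => by
    exact_mod_cast (hA _ (ix_le n th u)).2
  have hup : ∀ s ∈ S, 0 < s.a → ∀ u, |u| ≤ Q → D.lp u ≤ (1 - (s.b : ℝ) * u) / s.a := by
    intro s hs ha u hu
    rw [hlp, line_eq (hA _ (ix_le n th u)).2, line_eq ha]
    exact h6 u (abs_le.1 hu).1 (abs_le.1 hu).2 s (mem_filter.2 ⟨hs, ha⟩)
  have hx : ∀ x u, (x, u) ∈ PP S → x ≤ D.lp u := by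
    intro x u h
    have := h _ (hA _ (ix_le n th u)).1
    rw [hlp, le_div_iff₀ (hAi u)]
    simp only at this
    linarith
  have hsc : ∀ s ∈ S, ∀ u, (s.a : ℝ) * (u / Q * x0) + (s.b : ℝ) * u ≤ |u| / Q := by
    intro s hs u
    have h7 := abs_le_of_PP hS hz0 hs
    have e : (s.a : ℝ) * (u / Q * x0) + (s.b : ℝ) * u = u / Q * (s.a * x0 + s.b * Q) := by
      field_simp
    rw [e]
    refine (le_abs_self _).trans ?_
    rw [abs_mul, abs_div, abs_of_pos hQ]
    exact mul_le_of_le_one_right (by positivity) h7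
  have hdown : ∀ s ∈ S, s.a ≤ 0 → ∀ u, |u| ≤ Q →
      (s.a : ℝ) * D.lp u + (s.b : ℝ) * u ≤ |u| / Q := by
    intro s hs ha u hu
    have h7 : u / Q * x0 ≤ D.lp u :=
      hx _ _ fun r hr => (hsc r hr u).trans ((div_le_one hQ).2 hu)
    have h8 : (s.a : ℝ) ≤ 0 := by exact_mod_cast ha
    nlinarith [hsc s hs u, mul_nonneg (neg_nonneg.2 h8) (sub_nonneg.2 h7)]
  have hP : ∀ u, |u| ≤ Q → (D.lp u, u) ∈ PP S := by
    intro u hu s hs
    rcases le_or_gt s.a 0 with ha | ha
    · exact (hdown s hs ha u hu).trans ((div_le_one hQ).2 hu)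
    · have h7 := hup s hs ha u hu
      rw [le_div_iff₀ (by exact_mod_cast ha)] at h7
      simp only
      linarith
  refine ⟨D, hS, hQ, hA, h2, h3, h4, ?_, ?_, ?_, ?_⟩
  · intro k hk
    have hk' : k < n := hk
    show (1 - ((A k).b : ℝ) * th k) / (A k).a = (1 - ((A (k + 1)).b : ℝ) * th k) / (A (k + 1)).a
    rw [line_eq (hA k hk'.le).2, line_eq (hA (k + 1) hk').2]
    exact h5 k hk'
  · intro s hs u hu
    have := hP u hu s hs
    simp only [LD.slk, LD.lam, if_true] at this ⊢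
    linarith
  · intro s hs u hu hth h0
    have hu' : |u| < Q := hu
    simp only [LD.slk, LD.lam, if_true] at h0
    rcases le_or_gt s.a 0 with ha | ha
    · have h7 := hdown s hs ha u hu'.le
      have h8 := (div_lt_one hQ).2 hu'
      linarith
    · have haR : (0 : ℝ) < s.a := by exact_mod_cast ha
      have h7 : ∀ᶠ v in nhds u, ix n th v = ix n th u ∧ |v| < Q :=
        (ix_loc n th u hth).and (continuous_abs.continuousAt.eventually_lt continuousAt_const hu')
      obtain ⟨ε, hε, h8⟩ := Metric.eventually_nhds_iff.1 h7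
      have h9 : ∀ v, |v - u| < ε → 1 / ((A (ix n th u)).a : ℝ) -
          ((A (ix n th u)).b : ℝ) / (A (ix n th u)).a * v ≤ 1 / (s.a : ℝ) - (s.b : ℝ) / s.a * v := by
        intro v hv
        obtain ⟨e1, e2⟩ := h8 (y := v) (by rwa [Real.dist_eq])
        have := h6 v (abs_le.1 e2.le).1 (abs_le.1 e2.le).2 s (mem_filter.2 ⟨hs, ha⟩)
        rwa [e1] at this
      have h10 : 1 / ((A (ix n th u)).a : ℝ) -
          ((A (ix n th u)).b : ℝ) / (A (ix n th u)).a * u = 1 / (s.a : ℝ) - (s.b : ℝ) / s.a * u := by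
        rw [← line_eq (hA _ (ix_le n th u)).2, ← line_eq ha, ← hlp, eq_div_iff haR.ne']
        linarith
      have hp := h9 (u + ε / 2) (by rw [add_sub_cancel_left, abs_of_pos (by linarith)]; linarith)
      have hm := h9 (u - ε / 2) (by
        rw [sub_sub_cancel_left, abs_neg, abs_of_pos (by linarith)]; linarith)
      have hk : ((A (ix n th u)).b : ℝ) / (A (ix n th u)).a = (s.b : ℝ) / s.a := by
        apply le_antisymm <;> nlinarith
      rw [hk] at h10
      have ha' : ((A (ix n th u)).a : ℝ) = s.a := by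
        have : 1 / ((A (ix n th u)).a : ℝ) = 1 / (s.a : ℝ) := by linarith
        rwa [one_div, one_div, inv_inj] at this
      rw [ha', div_left_inj' haR.ne'] at hk
      exact ⟨by exact_mod_cast ha'.symm, by exact_mod_cast hk.symm⟩
  · intro hom
    refine hC ?_
    by_contra hn
    have hom' : 0 < D.lp Q + D.lp (-Q) := hom
    have p1 := hP Q (abs_of_pos hQ).le
    have p2 := hP (-Q) (by rw [abs_neg, abs_of_pos hQ])
    obtain ⟨t, ht, h7⟩ := push (S := S) ((D.lp Q - D.lp (-Q)) / 2) Q 0 1 (by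
      intro s hs
      have q1 := p1 s hs
      have q2 := (abs_le.1 (abs_le_of_PP hS p2 hs)).1
      simp only at q1 q2
      rcases lt_trichotomy s.a 0 with ha | ha | ha
      · have : (s.a : ℝ) < 0 := by exact_mod_cast ha
        nlinarith [mul_pos (neg_pos.2 this) hom']
      · have h8 : Q * (s.b : ℝ) ≠ 1 := fun h => hn ⟨s, hs, ha, h⟩
        rw [ha] at q1 ⊢
        simp only [Int.cast_zero, zero_mul, zero_add] at q1 ⊢
        exact lt_of_le_of_ne q1 fun h => h8 (by linarith)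
      · have : (0 : ℝ) < s.a := by exact_mod_cast ha
        nlinarith [mul_pos this hom'])
    have := hmax' _ h7
    simp only at this
    linarith

end Pool.Agent.P.MP_a0f0ad_al.Fi
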