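import Pool.Agent.P.MP_a0f0ad_al.Fi.V.Iface
import Pool.Agent.P.MP_a0f0ad_al.Fi.V.Cone
import Pool.Agent.P.MP_a0f0ad_al.Fi.Z.Bq
import Pool.Agent.P.MP_a0f0ad_al.Fi.Z.Bp

/-! Step MARK of the filiform project. -/

namespace Pool.Agent.P.MP_a0f0ad_al.Fi

open Finset MeasureTheory

namespace MarkA

open Polynomial

variable {d : ℕ}

theorem coef (P : ℝ[X]) (x : ℝ) (k : ℕ) :
    (k.factorial : ℝ) * (taylor x P).coeff k = (derivative^[k] P).eval x := by
  rw [taylor_coeff, ← factorial_smul_hasseDeriv, LinearMap.smul_apply, eval_smul, nsmul_eq_mul]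

theorem deg (q : Fin d → ℝ) (x : ℝ) : (taylor x (pol q)).degree < d := by
  rw [degree_taylor]
  exact degree_pol_lt q

theorem shift (q : Fin d → ℝ) (x t : ℝ) :
    ∑ j, cf d (taylor x (pol q)) j * t ^ (j : ℕ) = ev q 0 (t + x) := by
  have h := ev_cf (deg q x) 0 t
  rw [Function.iterate_zero_apply, taylor_eval] at h
  rw [ev_eq_eval, Function.iterate_zero_apply, ← h]
  simp [ev, dot, Vd]

end MarkA

theorem p_MARK :
    S_MARK := by
  intro d L
  obtain ⟨C, hC, hc⟩ := coef_bound d
  obtain ⟨C', hC', hv⟩ := exists_Vd_bound d L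
  have hK : (1 : ℝ) ≤ max 1 (2 * L) := le_max_left _ _
  have hKd : (1 : ℝ) ≤ max 1 (2 * L) ^ d := one_le_pow₀ hK
  have hf : ∀ k : ℕ, (1 : ℝ) ≤ k.factorial := fun k => by exact_mod_cast Nat.factorial_pos k
  have hfd := hf d
  refine ⟨C * (C' * max 1 (2 * L) ^ d * d.factorial), by positivity,
    fun q m M B hmM hm hM hB => ?_⟩
  have B0 : 0 ≤ B := (abs_nonneg _).trans (hB m ⟨le_rfl, hmM.le⟩)
  have l0 : 0 < M - m := sub_pos.2 hmM
  have CB : 0 ≤ C * B := by positivity
  have key : ∀ x ∈ Set.Icc m M, ∀ j : Fin d,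
      |cf d (Polynomial.taylor x (pol q)) j| * (M - m) ^ (j : ℕ) ≤ C * B := fun x hx j => by
    have := hc (cf d (Polynomial.taylor x (pol q))) (m - x) (M - x) B (sub_nonpos.2 hx.1)
      (sub_nonneg.2 hx.2) (fun t ht => by
        rw [MarkA.shift]
        exact hB _ ⟨by linarith [ht.1], by linarith [ht.2]⟩) j
    rwa [sub_sub_sub_cancel_right] at this
  constructor
  · set c := cf d (Polynomial.taylor m (pol q)) with hcd
    have h1 : ‖c‖ ≤ C * B * max 1 (2 * L) ^ d / (M - m) ^ d := by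
      refine (pi_norm_le_iff_of_nonneg (by positivity)).2 fun j => ?_
      rw [le_div_iff₀ (by positivity), Real.norm_eq_abs, ← pow_mul_pow_sub (M - m) j.2.le,
        ← mul_assoc]
      refine mul_le_mul (key m ⟨le_rfl, hmM.le⟩ j) ?_ (by positivity) CB
      exact (pow_le_pow_left₀ l0.le ((by linarith : M - m ≤ 2 * L).trans (le_max_right 1 _))
        _).trans (pow_le_pow_right₀ hK (Nat.sub_le _ _))
    have h2 : ‖q‖ ≤ C' * ‖c‖ := by
      refine (pi_norm_le_iff_of_nonneg (by positivity)).2 fun j => ?_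
      have e := MarkA.coef (Polynomial.taylor m (pol q)) (-m) j
      rw [Polynomial.taylor_taylor, neg_add_cancel, Polynomial.taylor_zero,
        ← ev_cf (MarkA.deg q m), ← hcd] at e
      have e1 : (pol q).coeff j = q j := congrFun (cf_pol q) j
      have e2 := (hv j (-m) (abs_le.2 ⟨by linarith, by linarith⟩)).2 c
      rw [← e, e1, abs_mul, Nat.abs_cast] at e2
      exact (le_mul_of_one_le_left (abs_nonneg _) (hf j)).trans e2
    rw [le_div_iff₀ (by positivity)] at h1
    calc ‖q‖ * (M - m) ^ d ≤ C' * ‖c‖ * (M - m) ^ d := by gcongr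
      _ ≤ C' * (C * B * max 1 (2 * L) ^ d) := by rw [mul_assoc]; gcongr
      _ = C * (C' * max 1 (2 * L) ^ d * 1) * B := by ring
      _ ≤ _ := by gcongr
  · intro k x hx
    rcases lt_or_ge k d with hk | hk
    · rw [ev_eq_eval, ← MarkA.coef, abs_mul, Nat.abs_cast, mul_assoc]
      have h3 : (k.factorial : ℝ) ≤ d.factorial := by exact_mod_cast Nat.factorial_le hk.le
      calc _ ≤ d.factorial * (C * B) :=
            mul_le_mul h3 (key x hx ⟨k, hk⟩) (by positivity) (by positivity)
        _ = C * (1 * 1 * d.factorial) * B := by ring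
        _ ≤ _ := by gcongr
    · have e : ev q k x = 0 := by
        rw [ev, dot]
        refine sum_eq_zero fun j _ => ?_
        rw [Vd, Nat.descFactorial_eq_zero_iff_lt.2 (j.2.trans_le hk)]
        simp
      rw [e, abs_zero, zero_mul]
      positivity

end Pool.Agent.P.MP_a0f0ad_al.Fi
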