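import Pool.Agent.P.MP_a0f0ad_al.Fi.V.Iface
import Pool.Agent.P.MP_a0f0ad_al.Fi.V.Vb

/-! Chapter V: perturbation of a primal representation. -/

namespace Pool.Agent.P.MP_a0f0ad_al.Fi

open Finset MeasureTheory Filter Topology

namespace VB

variable {d : ℕ} {D : LD d} {S : Finset (G d)}

/-- first order necessary condition along a family of competitors -/
theorem stat0 {N : E d → ℝ} {p u : E d} (hG : Grad N p u) {K r : ℝ} {R : ℝ → ℝ}
    (hR : HasDerivAt R r 0) (h0 : R 0 = 0)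
    (H : ∀ᶠ t in 𝓝[>] (0 : ℝ), ∃ u', ‖u' - u‖ ≤ K * t ∧ N u' - N u - pair p (u' - u) ≤ R t) :
    0 ≤ r := by
  obtain ⟨L, hL, e⟩ := hG
  refine le_of_forall_pos_le_add fun ε hε => ?_
  have hK : 0 < |K| + 1 := by positivity
  obtain ⟨δ, hδ, h1⟩ := Metric.eventually_nhds_iff.1
    (Asymptotics.isLittleO_iff.1 hL.isLittleO (div_pos hε hK))
  have a1 : ∀ᶠ t in 𝓝 (0 : ℝ), K * t < δ :=
    ContinuousAt.eventually_lt (by fun_prop) (by fun_prop) (by simpa using hδ)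
  have : -ε ≤ r := by
    refine ge_of_tendsto hR.tendsto_slope_zero_right ?_
    filter_upwards [H, nhdsWithin_le_nhds a1, self_mem_nhdsWithin] with t ⟨u', b1, b2⟩ b3 b4
    have b4 : 0 < t := b4
    have c1 := h1 (y := u') (by rw [dist_eq_norm]; linarith)
    rw [e, Real.norm_eq_abs] at c1
    have c2 : ε / (|K| + 1) * ‖u' - u‖ ≤ ε * t := by
      rw [div_mul_eq_mul_div, div_le_iff₀ hK, mul_assoc]
      exact mul_le_mul_of_nonneg_left (by nlinarith [le_abs_self K]) hε.le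
    rw [zero_add, h0, sub_zero, smul_eq_mul, le_inv_mul_iff₀ b4]
    linarith [(abs_le.1 c1).1]
  linarith

/-- the reduced times of the two directions -/
noncomputable def f1 (D : LD d) (φ : ℝ → ℝ) (q : Fin d → ℝ) (x : ℝ) : ℝ :=
  ia D (φ x) - D.kp (φ x) * ev q 0 x
noncomputable def g1 (D : LD d) (φ : ℝ → ℝ) (q : Fin d → ℝ) (x : ℝ) : ℝ :=
  ia D (-φ x) + D.kp (-φ x) * ev q 0 x

theorem II_f1 (h : D.Spec S) {φ : ℝ → ℝ} (hφ : Continuous φ) (q : Fin d → ℝ) : II (f1 D φ q) :=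
  II.sub (h.ii_inv_a hφ) (h.ii_kp hφ (continuous_ev q 0))
theorem II_g1 (h : D.Spec S) {φ : ℝ → ℝ} (hφ : Continuous φ) (q : Fin d → ℝ) : II (g1 D φ q) :=
  II.add (h.ii_inv_a hφ.fun_neg) (h.ii_kp hφ.fun_neg (continuous_ev q 0))

theorem Cf_sub (h : D.Spec S) {φ : ℝ → ℝ} (hφ : Continuous φ) (q : Fin d → ℝ) (m M a : ℝ) :
    Cf D φ m M a = P3 (f1 D φ q) (g1 D φ q) m M a + Yf D φ (ev q 0) m M a := by
  rw [Yf, ← P3_add (II_f1 h hφ q) (II_g1 h hφ q) (h.ii_kp hφ (continuous_ev q 0))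
    (II.neg (h.ii_kp hφ.fun_neg (continuous_ev q 0)))]
  simp only [Cf, f1, g1, sub_add_cancel, add_neg_cancel_right]

theorem abs_int_le {f : ℝ → ℝ} {L B s t : ℝ} (hs : |s| ≤ L) (ht : |t| ≤ L)
    (hf : ∀ x, |x| ≤ L → |f x| ≤ B) : |∫ x in s..t, f x| ≤ B * |t - s| := by
  refine intervalIntegral.norm_integral_le_of_norm_le_const (f := f) fun x hx => hf x ?_
  have := Set.uIcc_subset_Icc (abs_le.1 hs) (abs_le.1 ht) (Set.uIoc_subset_uIcc hx)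
  exact abs_le.2 this

/-- the perturbation inequality -/
theorem pert (hHOM : S_HOM) (h : D.Spec S) (L : ℝ) : ∃ K : ℝ, 0 ≤ K ∧ ∀ (φ : ℝ → ℝ),
    Continuous φ → ∀ (p u : E d) (m M m' M' a' t ε : ℝ) (Z : Finset ℝ) (mu π : ℝ → ℝ),
    u.2 = Yv D φ m M u.1 + ∑ z ∈ Z, mu z • Vd 0 z →
    Cf D φ m M u.1 + D.Q * ∑ z ∈ Z, |mu z| ≤ D.NN u + ε →
    -L ≤ m → m ≤ 0 → 0 ≤ u.1 → u.1 ≤ M → M ≤ L → -L ≤ m' → m' ≤ 0 → 0 ≤ a' → a' ≤ M' → M' ≤ L →
    m' < M' → |m - m'| ≤ t → |M' - M| ≤ t → |a' - u.1| ≤ t →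
    (∀ z ∈ Z, z ∈ Set.Icc m M ∧ π z ∈ Set.Icc m' M' ∧ |π z - z| ≤ t) →
    ∃ u', ‖u' - u‖ ≤ K * (1 + ∑ z ∈ Z, |mu z|) * t ∧ D.NN u' - D.NN u - pair p (u' - u) ≤
      (∫ x in M..M', f1 D φ p.2 x + g1 D φ p.2 x) + (∫ x in m'..m, f1 D φ p.2 x + g1 D φ p.2 x) -
        (∫ x in u.1..a', g1 D φ p.2 x) - ∑ z ∈ Z, mu z * (ev p.2 0 (π z) - ev p.2 0 z) -
        p.1 * (a' - u.1) + ε := by
  obtain ⟨C, hC, hk, -⟩ := h.exists_bound
  obtain ⟨C1, hC1, hV⟩ := exists_Vd_bound d L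
  obtain ⟨C2, hC2, hT⟩ := exists_Vd_taylor d L
  refine ⟨5 * (C * C1) + C2 + 1, by positivity, ?_⟩
  intro φ hφ p u m M m' M' a' t ε Z mu π e1 e2 l1 l2 l3 l4 l5 l6 l7 l8 l9 l10 l11 t1 t2 t3 hZ
  have ht : 0 ≤ t := (abs_nonneg _).trans t1
  have hs : 0 ≤ ∑ z ∈ Z, |mu z| := sum_nonneg fun _ _ => abs_nonneg _
  have e3 : Yv D φ m' M' a' + ∑ z ∈ Z, mu z • Vd 0 (π z) - u.2 = (Yv D φ m' M' a' - Yv D φ m M u.1) +
      ∑ z ∈ Z, mu z • (Vd 0 (π z) - Vd 0 z) := by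
    simp only [e1, smul_sub, sum_sub_distrib]; abel
  refine ⟨(a', Yv D φ m' M' a' + ∑ z ∈ Z, mu z • Vd 0 (π z)), ?_, ?_⟩
  · have n1 : ‖Yv D φ m' M' a' - Yv D φ m M u.1‖ ≤ 5 * (C * C1) * t := by
      refine (pi_norm_le_iff_of_nonneg (by positivity)).2 fun j => ?_
      have b : ∀ v x, |x| ≤ L → |D.kp v * Vd 0 x j| ≤ C * C1 := fun v x hx => by
        rw [abs_mul]
        exact mul_le_mul (hk v) ((norm_le_pi_norm (Vd 0 x) j).trans (hV 0 x hx).1) (abs_nonneg _)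
          (by linarith)
      have b2 : ∀ x, |x| ≤ L → |D.kp (φ x) * Vd 0 x j + -(D.kp (-φ x) * Vd 0 x j)| ≤
          2 * (C * C1) := fun x hx => (abs_add_le _ _).trans (by
        rw [abs_neg]; linarith [b (φ x) x hx, b (-φ x) x hx])
      have c1 := abs_int_le (s := M) (t := M') (abs_le.2 ⟨by linarith, l5⟩)
        (abs_le.2 ⟨by linarith, l10⟩) b2
      have c2 := abs_int_le (s := m') (t := m) (abs_le.2 ⟨l6, by linarith⟩)
        (abs_le.2 ⟨l1, by linarith⟩) b2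
      have c3 := abs_int_le (L := L) (s := u.1) (t := a') (abs_le.2 ⟨by linarith, by linarith⟩)
        (abs_le.2 ⟨by linarith, by linarith⟩) (f := fun x => -(D.kp (-φ x) * Vd 0 x j))
        fun x hx => by rw [abs_neg]; exact b _ x hx
      have hCC : 0 ≤ C * C1 := by positivity
      rw [Pi.sub_apply, Yv, Yv, Yf, Yf,
        P3_sub (h.ii_kp hφ (cVd j)) (II.neg (h.ii_kp hφ.fun_neg (cVd j))), Real.norm_eq_abs]
      refine (abs_sub _ _).trans ((add_le_add (abs_add_le _ _) le_rfl).trans ?_)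
      nlinarith [mul_le_mul_of_nonneg_left t1 hCC, mul_le_mul_of_nonneg_left t2 hCC,
        mul_le_mul_of_nonneg_left t3 hCC]
    have n2 : ‖∑ z ∈ Z, mu z • (Vd 0 (π z) - Vd 0 z : Fin d → ℝ)‖ ≤
        (∑ z ∈ Z, |mu z|) * (C2 * t) := by
      rw [sum_mul]
      refine norm_sum_le_of_le _ fun z hz => ?_
      obtain ⟨a1, a2, a3⟩ := hZ z hz
      rw [norm_smul]
      refine mul_le_mul_of_nonneg_left (((hT 0 z (π z) (abs_le.2 ⟨by linarith [a1.1],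
        by linarith [a1.2]⟩) (abs_le.2 ⟨by linarith [a2.1], by linarith [a2.2]⟩)).1).trans ?_)
        (abs_nonneg _)
      exact mul_le_mul_of_nonneg_left a3 (by linarith)
    have k1 : 0 ≤ C * C1 * t := by positivity
    have k2 : 0 ≤ C2 * t := by positivity
    refine norm_prod_le_iff.2 ⟨t3.trans ?_, ?_⟩
    · nlinarith [mul_nonneg hs k1, mul_nonneg hs k2, mul_nonneg hs ht]
    · simp only [Prod.snd_sub, e3]
      refine (norm_add_le_of_le n1 n2).trans ?_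
      nlinarith [mul_nonneg hs k1, mul_nonneg hs k2, mul_nonneg hs ht]
  · have a1 := ((hHOM d S D h).2.2.1
      (a', Yv D φ m' M' a' + ∑ z ∈ Z, mu z • Vd 0 (π z)) m' M' l7 l8 l9 l11).1.trans
      (primal h hφ l7 l8 l9 Z mu π fun z hz => (hZ z hz).2.1)
    have a2 := P3_sub (II_f1 h hφ p.2) (II_g1 h hφ p.2) m M u.1 m' M' a'
    rw [Cf_sub h hφ p.2] at a1 e2
    simp only [pair, Prod.snd_sub, Prod.fst_sub, e3, dot_add_right, dot_sub_right, dot_Yv h hφ,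
      dot_sum_right, dot_smul_right]
    simp only [ev] at *
    linarith

end VB

end Pool.Agent.P.MP_a0f0ad_al.Fi
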