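import Pool.Agent.P.MP_a0f0ad_al.Fi.V.Iface
import Pool.Agent.P.MP_a0f0ad_al.Fi.V.Pert
import Pool.Agent.P.MP_a0f0ad_al.Fi.V.Pub

/-! Step OPT of the filiform project. -/

namespace Pool.Agent.P.MP_a0f0ad_al.Fi

open Finset MeasureTheory Filter Topology
open scoped Classical

namespace VB

variable {d : ℕ} {D : LD d} {S : Finset (G d)}

theorem deriv_end {f : ℝ → ℝ} (hf : Continuous f) (s c : ℝ) :
    HasDerivAt (fun t => ∫ x in s..s + c * t, f x) (f s * c) 0 := by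
  have h1 : HasDerivAt (fun t : ℝ => s + c * t) c 0 := by
    simpa using ((hasDerivAt_id (0 : ℝ)).const_mul c).const_add s
  have h2 := (hf.deriv_integral _ s s ▸ (intervalIntegral.integral_hasDerivAt_right
    (hf.intervalIntegrable s s) (hf.stronglyMeasurableAtFilter _ _) hf.continuousAt) :
      HasDerivAt (fun r => ∫ x in s..r, f x) (f s) s)
  exact HasDerivAt.comp_of_eq _ h2 h1 (by simp)

theorem deriv_ev (q : Fin d → ℝ) (s c : ℝ) :
    HasDerivAt (fun t => ev q 0 (s + c * t)) (ev q 1 s * c) 0 := by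
  have h1 : HasDerivAt (fun t : ℝ => s + c * t) c 0 := by
    simpa using ((hasDerivAt_id (0 : ℝ)).const_mul c).const_add s
  exact HasDerivAt.comp_of_eq _ (hasDerivAt_ev q 0 s) h1 (by simp)

/-- the first order condition in an admissible direction -/
theorem stat (hHOM : S_HOM) (h : D.Spec S) {u p : E d} (ha : 0 < u.1) (hG : Grad D.NN p u)
    {ρ : RD d} (hq : ρ.q = p.2) (hρ : ρ.Rep D u) (ho : D.Bf ρ.q ρ.m ρ.M u = D.NN u) (α β γ : ℝ)
    (hα : |α| ≤ 1) (hβ : |β| ≤ 1) (hγ : |γ| ≤ 1) (h1 : β ≤ 0 ∨ ρ.m < 0) (h2 : α ≤ γ ∨ u.1 < ρ.M) :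
    0 ≤ γ * ρ.DM D - β * ρ.Dm D - α * (D.lp (-ev ρ.q 0 u.1) + p.1) := by
  obtain ⟨K, -, hK⟩ := pert hHOM h (ρ.M - ρ.m + 1)
  have hc := rep_cost h hρ
  obtain ⟨hm, hM, hmM, -, hZ, hy⟩ := hρ
  have hφ := continuous_ev ρ.q 0
  have hom : Continuous fun x => D.om (ev ρ.q 0 x) := h.continuous_om.comp hφ
  have hlp : Continuous fun x => D.lp (-ev ρ.q 0 x) := h.continuous_lp.comp hφ.fun_neg
  have hR := (((((deriv_end hom ρ.M γ).fun_sub (deriv_end hom ρ.m β)).fun_sub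
    (deriv_end hlp u.1 α)).fun_sub
    (((deriv_ev ρ.q ρ.M γ).sub_const (ev ρ.q 0 ρ.M)).const_mul (ρ.muAt ρ.M))).fun_sub
    (((deriv_ev ρ.q ρ.m β).sub_const (ev ρ.q 0 ρ.m)).const_mul (ρ.muAt ρ.m))).fun_sub
    ((hasDerivAt_id (0 : ℝ)).const_mul (p.1 * α))
  refine (stat0 hG (K := K * (1 + ∑ z ∈ ρ.Z, |ρ.mu z|)) hR (by simp) ?_).trans_eq
    (by simp only [RD.DM, RD.Dm]; ring)
  have ev1 : ∀ {x y : ℝ} (b c : ℝ), x < y → ∀ᶠ t in 𝓝[>] (0 : ℝ), x + b * t < y + c * t :=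
    fun b c e => nhdsWithin_le_nhds
      (ContinuousAt.eventually_lt (by fun_prop) (by fun_prop) (by simpa using e))
  have a1 : ∀ᶠ t in 𝓝[>] (0 : ℝ), ρ.m + β * t ≤ 0 := by
    rcases h1 with e | e
    · filter_upwards [self_mem_nhdsWithin] with t (ht : 0 < t)
      nlinarith
    · exact (ev1 β 0 e).mono fun t ht => by linarith
  have a2 : ∀ᶠ t in 𝓝[>] (0 : ℝ), u.1 + α * t ≤ ρ.M + γ * t := by
    rcases h2 with e | e
    · filter_upwards [self_mem_nhdsWithin] with t (ht : 0 < t)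
      nlinarith
    · exact (ev1 α γ e).mono fun t ht => ht.le
  have a3 : ∀ᶠ t in 𝓝[>] (0 : ℝ), ∀ z ∈ ρ.Z, z ≠ ρ.M → z ≠ ρ.m →
      ρ.m + β * t ≤ z ∧ z ≤ ρ.M + γ * t := (eventually_all_finset _).2 fun z hz => by
    by_cases e1 : z = ρ.M
    · exact Eventually.of_forall fun _ e => absurd e1 e
    by_cases e2 : z = ρ.m
    · exact Eventually.of_forall fun _ _ e => absurd e2 e
    filter_upwards [ev1 β 0 ((hZ z hz).1.lt_of_ne' e2), ev1 0 γ ((hZ z hz).2.1.lt_of_ne e1)]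
      with t b1 b2 _ _
    constructor <;> linarith
  filter_upwards [a1, a2, a3, ev1 0 α ha, ev1 β γ hmM, self_mem_nhdsWithin,
    nhdsWithin_le_nhds (gt_mem_nhds one_pos)] with t t1 t2 t3 t4 t5 (t6 : 0 < t) t7
  have s : ∀ c : ℝ, |c| ≤ 1 → |c * t| ≤ t := fun c hc => by
    rw [abs_mul, abs_of_pos t6]; nlinarith
  have s1 := abs_le.1 (s β hβ)
  have s2 := abs_le.1 (s γ hγ)
  obtain ⟨u', d1, d2⟩ := hK _ hφ p u ρ.m ρ.M (ρ.m + β * t) (ρ.M + γ * t) (u.1 + α * t) t 0 ρ.Z ρ.mu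
    (fun z => if z = ρ.M then ρ.M + γ * t else if z = ρ.m then ρ.m + β * t else z)
    (by rw [← Yq_eq]; exact hy) (by rw [← hc, ho, add_zero])
    (by linarith) hm ha.le hM (by linarith) (by linarith) t1 (by linarith) t2 (by linarith) t5
    (by simpa using s β hβ) (by simpa using s γ hγ) (by simpa using s α hα)
    fun z hz => ⟨⟨(hZ z hz).1, (hZ z hz).2.1⟩, by
      split_ifs with e1 e2
      · exact ⟨⟨t5.le, le_rfl⟩, by simpa [e1] using s γ hγ⟩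
      · exact ⟨⟨le_rfl, t5.le⟩, by simpa [e2] using s β hβ⟩
      · exact ⟨t3 z hz e1 e2, by simpa using t6.le⟩⟩
  refine ⟨u', d1, d2.trans_eq ?_⟩
  have e1 : ∀ x, f1 D (ev ρ.q 0) p.2 x + g1 D (ev ρ.q 0) p.2 x = D.om (ev ρ.q 0 x) := fun x => by
    simp only [f1, g1, ia_eq, ← hq, LD.om]; ring
  have e2 : ∀ x, g1 D (ev ρ.q 0) p.2 x = D.lp (-ev ρ.q 0 x) := fun x => by
    simp only [g1, ia_eq, ← hq]; ring
  have e3 : ∀ z, ρ.mu z * (ev p.2 0 (if z = ρ.M then ρ.M + γ * t else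
      if z = ρ.m then ρ.m + β * t else z) - ev p.2 0 z) =
      (if z = ρ.M then ρ.mu z * (ev ρ.q 0 (ρ.M + γ * t) - ev ρ.q 0 ρ.M) else 0) +
      if z = ρ.m then ρ.mu z * (ev ρ.q 0 (ρ.m + β * t) - ev ρ.q 0 ρ.m) else 0 := fun z => by
    rw [← hq]
    by_cases c1 : z = ρ.M
    · simp [c1, hmM.ne']
    by_cases c2 : z = ρ.m
    · simp [c2, hmM.ne]
    · simp [c1, c2]
  simp only [e1]
  simp only [e2, e3, sum_add_distrib, sum_ite_eq', RD.muAt, ite_mul, zero_mul, id]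
  rw [intervalIntegral.integral_symm ρ.m (ρ.m + β * t)]
  ring

end VB

open VB in
theorem p_OPT (hMARK : S_MARK) (hPEN : S_PEN) (hHOM : S_HOM) (hATT : S_ATT) (hSUBG : S_SUBG) (hKKT : S_KKT) (hPUB : S_PUB) :
    S_OPT := by
  intro d S D h u p ha hG hq
  obtain ⟨m, M, hm, hM, hmM, ho⟩ := hATT d S D h u ha.le
    ((abs_pos.2 ha.ne').trans_le (le_max_left _ _))
  obtain ⟨hF, hB⟩ := hSUBG d S D h u p m M ha hG hm hM ho
  obtain ⟨Z, mu, -, hρ⟩ := hKKT d S D h u p.2 m M hm ha.le hM hmM hF (hB.trans ho.symm) (Or.inl hq)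
  have st := stat hHOM h ha hG rfl hρ hB
  have s1 := st 0 0 1 (by simp) (by simp) (by simp) (Or.inl le_rfl) (Or.inl zero_le_one)
  have s2 := st 0 (-1) 0 (by simp) (by simp) (by simp) (Or.inl (by norm_num)) (Or.inl le_rfl)
  have s3 := st 1 0 1 (by simp) (by simp) (by simp) (Or.inl le_rfl) (Or.inl le_rfl)
  have s4 := st (-1) 0 (-1) (by simp) (by simp) (by simp) (Or.inl le_rfl) (Or.inl le_rfl)
  refine ⟨_, rfl, hρ, hB, by linarith, fun e => ?_, by linarith, fun e => ?_, by linarith⟩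
  · linarith [st 0 0 (-1) (by simp) (by simp) (by simp) (Or.inl le_rfl) (Or.inr e)]
  · linarith [st 0 1 0 (by simp) (by simp) (by simp) (Or.inr e) (Or.inl le_rfl)]

end Pool.Agent.P.MP_a0f0ad_al.Fi
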