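import Pool.Agent.P.MP_a0f0ad_al.Fi.V.Iface
import Pool.Agent.P.MP_a0f0ad_al.Fi.V.Pert

/-! Step OPTC of the filiform project. -/

namespace Pool.Agent.P.MP_a0f0ad_al.Fi

open Finset MeasureTheory Filter Topology

namespace VB

variable {d : ℕ} {D : LD d} {S : Finset (G d)}

theorem Bf_const {q : Fin d → ℝ} (hq : ¬Nonconst q) (m M : ℝ) (u : E d) :
    D.Bf q m M u = dot q u.2 + u.1 * D.lp (co q 0) + D.om (co q 0) * (M - u.1 - m) := by
  rw [Bf_eq, funext fun x => (not_nonconst hq x).1, Jf, P3_const, LD.om]; ring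

/-- shrinking the range of an almost optimal representation -/
theorem shrink (hHOM : S_HOM) (hAPR : S_APR) (hd : 1 ≤ d) (h : D.Spec S) {u p : E d} (ha : 0 < u.1)
    (hG : Grad D.NN p u) (hq : ¬Nonconst p.2) {m M : ℝ} (hm : m ≤ 0) (hM : u.1 ≤ M)
    (ho : D.Psi m M u = D.NN u) (β γ : ℝ) (hβ : β = 0 ∨ β = 1 ∧ m < 0)
    (hγ : γ = 0 ∨ γ = 1 ∧ u.1 < M) : (β + γ) * D.om (co p.2 0) ≤ 0 := by
  obtain ⟨K, hK0, hK⟩ := pert hHOM h (M - m)
  have hR : HasDerivAt (fun t : ℝ => -((β + γ) * D.om (co p.2 0)) * t + t * t)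
      (-((β + γ) * D.om (co p.2 0))) 0 := by
    simpa using ((hasDerivAt_id (0 : ℝ)).const_mul (-((β + γ) * D.om (co p.2 0)))).fun_add
      ((hasDerivAt_id (0 : ℝ)).fun_mul (hasDerivAt_id (0 : ℝ)))
  have b0 : 0 ≤ β ∧ β ≤ 1 := by rcases hβ with rfl | ⟨rfl, -⟩ <;> norm_num
  have g0 : 0 ≤ γ ∧ γ ≤ 1 := by rcases hγ with rfl | ⟨rfl, -⟩ <;> norm_num
  refine neg_nonneg.1 (stat0 hG (K := K * (1 + (D.NN u + 1) / D.Q)) hR (by simp) ?_)
  have a1 : ∀ᶠ t in 𝓝 (0 : ℝ), m + β * t ≤ 0 := by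
    rcases hβ with rfl | ⟨rfl, e⟩
    · simpa using hm
    · exact (ContinuousAt.eventually_lt (by fun_prop) (by fun_prop) (by simpa using e)).mono
        fun _ => le_of_lt
  have a2 : ∀ᶠ t in 𝓝 (0 : ℝ), u.1 ≤ M - γ * t := by
    rcases hγ with rfl | ⟨rfl, e⟩
    · simpa using hM
    · exact (ContinuousAt.eventually_lt (by fun_prop) (by fun_prop) (by simpa using e)).mono
        fun _ => le_of_lt
  filter_upwards [nhdsWithin_le_nhds a1, nhdsWithin_le_nhds a2, self_mem_nhdsWithin,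
    nhdsWithin_le_nhds (gt_mem_nhds one_pos)] with t t1 t2 t3 t4
  have t3 : 0 < t := t3
  obtain ⟨φ, Z, mu, -, -, -, c1, c2, c3⟩ :=
    hAPR d S D hd h u m M (t * t) hm ha.le hM (by linarith) (mul_pos t3 t3)
  have hφ := continuous_ev φ 0
  have s1 : 0 ≤ β * t ∧ β * t ≤ t := ⟨mul_nonneg b0.1 t3.le, by nlinarith [b0.2]⟩
  have s2 : 0 ≤ γ * t ∧ γ * t ≤ t := ⟨mul_nonneg g0.1 t3.le, by nlinarith [g0.2]⟩
  rw [ho] at c3
  obtain ⟨u', d1, d2⟩ := hK _ hφ p u m M (m + β * t) (M - γ * t) u.1 t (t * t) Z mu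
    (fun z => max (m + β * t) (min (M - γ * t) z))
    (funext fun j => by rw [c2 j, ← Yf_eq]; simp [Yv, Finset.sum_apply]) c3
    (by linarith) hm ha.le hM (by linarith) (by linarith) t1 ha.le t2 (by linarith) (by linarith)
    (abs_le.2 ⟨by linarith, by linarith⟩) (abs_le.2 ⟨by linarith, by linarith⟩) (by simpa using t3.le)
    fun z hz => ⟨c1 z hz, ⟨le_max_left _ _, max_le (by linarith) (min_le_left _ _)⟩, abs_le.2
      ⟨by
        have := le_max_right (m + β * t) (min (M - γ * t) z)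
        have := le_min (by linarith [(c1 z hz).2] : z - t ≤ M - γ * t) (by linarith : z - t ≤ z)
        linarith,
      by
        have := max_le (by linarith [(c1 z hz).1] : m + β * t ≤ z + t)
          ((min_le_right (M - γ * t) z).trans (by linarith : z ≤ z + t))
        linarith⟩⟩
  refine ⟨u', d1.trans ?_, d2.trans ?_⟩
  · have := Cf_nonneg h hφ hm ha.le hM
    have : ∑ z ∈ Z, |mu z| ≤ (D.NN u + 1) / D.Q := by
      rw [le_div_iff₀' h.Qpos]
      have : Cf D (ev φ 0) m M u.1 + D.Q * ∑ z ∈ Z, |mu z| ≤ D.NN u + t * t := c3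
      nlinarith
    gcongr
  · have k : ∀ s r, s ≤ r → D.om (co p.2 0) * (r - s) ≤
        ∫ x in s..r, f1 D (ev φ 0) p.2 x + g1 D (ev φ 0) p.2 x := fun s r hs => by
      have := intervalIntegral.integral_mono_on hs (intervalIntegrable_const (c := D.om (co p.2 0)))
        (((II_f1 h hφ p.2).add (II_g1 h hφ p.2)) s r) fun x _ => by
          have e1 := le_ia h (ev φ 0 x) (co p.2 0)
          have e2 := le_ia h (-ev φ 0 x) (-co p.2 0)
          simp only [f1, g1, (not_nonconst hq x).1, LD.om]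
          linarith
      rwa [intervalIntegral.integral_const, smul_eq_mul, mul_comm] at this
    have k1 := k (M - γ * t) M (by linarith)
    have k2 := k m (m + β * t) (by linarith)
    rw [intervalIntegral.integral_symm (M - γ * t) M, intervalIntegral.integral_symm m (m + β * t)]
    simp only [(not_nonconst hq _).1, sub_self, mul_zero, sum_const_zero,
      intervalIntegral.integral_same]
    linarith

end VB

open VB in
theorem p_OPTC (hMARK : S_MARK) (hPEN : S_PEN) (hHOM : S_HOM) (hATT : S_ATT) (hSUBG : S_SUBG) (hKKT : S_KKT) (hPUB : S_PUB) (hAPR : S_APR) :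
    S_OPTC := by
  intro d S D h u p ha hG hq
  obtain ⟨m, M, hm, hM, hmM, ho⟩ := hATT d S D h u ha.le
    ((abs_pos.2 ha.ne').trans_le (le_max_left _ _))
  obtain ⟨hF, hB⟩ := hSUBG d S D h u p m M ha hG hm hM ho
  rw [(not_nonconst hq 0).1]
  have hw : |co p.2 0| ≤ D.Q := (not_nonconst hq m).1 ▸ hF m ⟨le_rfl, hmM.le⟩
  have h0 := om_nn h hw
  have low : ∀ u' : E d, 0 ≤ u'.1 → dot p.2 u'.2 + u'.1 * D.lp (co p.2 0) ≤ D.NN u' := by
    intro u' hu'
    refine le_csInf ⟨_, -1, u'.1, by norm_num, le_rfl, by linarith, rfl⟩ ?_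
    rintro _ ⟨m', M', a1, a2, a3, rfl⟩
    have := (hPEN d S D h m' M' u' a1 hu' a2 a3).1 p.2 fun x _ => (not_nonconst hq x).1 ▸ hw
    rw [Bf_const hq] at this
    linarith [mul_nonneg h0 (by linarith : 0 ≤ M' - u'.1 - m')]
  have pin : 0 < D.om (co p.2 0) → m = 0 ∧ M = u.1 := fun hp => by
    rcases Nat.eq_zero_or_pos d with rfl | hd
    · have e : ∀ v : Fin 0 → ℝ, v = 0 := fun v => Subsingleton.elim _ _
      have h1 := ((hHOM 0 S D h).2.2.1 u 0 u.1 le_rfl ha.le le_rfl ha).1.trans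
        (Psi_le h (B := D.Bf p.2 0 u.1 u) fun q _ => by rw [e q, e p.2])
      rw [← hB, Bf_const hq, Bf_const hq] at h1
      have : M - u.1 - m ≤ 0 := by nlinarith
      constructor <;> linarith
    refine ⟨hm.eq_or_lt.resolve_right fun e => ?_, (hM.eq_or_lt.resolve_right fun e => ?_).symm⟩
    · linarith [shrink hHOM hAPR hd h ha hG hq hm hM ho 1 0 (Or.inr ⟨rfl, e⟩) (Or.inl rfl)]
    · linarith [shrink hHOM hAPR hd h ha hG hq hm hM ho 0 1 (Or.inl rfl) (Or.inr ⟨rfl, e⟩)]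
  refine ⟨m, M, hm, hM, hF, ho, hB, ?_, pin⟩
  have e : D.NN u = dot p.2 u.2 + u.1 * D.lp (co p.2 0) := by
    rw [← hB, Bf_const hq]
    rcases h0.eq_or_lt with e | e
    · rw [← e]; ring
    · rw [(pin e).1, (pin e).2]; ring
  obtain ⟨L, hL, hp⟩ := hG
  have c1 : HasDerivAt (fun s : ℝ => u + s • ((1, 0) : E d)) (1, 0) 0 := by
    simpa using ((hasDerivAt_id (0 : ℝ)).smul_const ((1, 0) : E d)).const_add u
  have c2 := (HasFDerivAt.comp_hasDerivAt_of_eq _ hL c1 (by simp)).fun_sub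
    ((hasDerivAt_id (0 : ℝ)).mul_const (D.lp (co p.2 0)))
  have c3 : ∀ᶠ s : ℝ in 𝓝 0, 0 < u.1 + s :=
    ContinuousAt.eventually_lt (by fun_prop) (by fun_prop) (by simpa using ha)
  have c4 := IsLocalMin.hasDerivAt_eq_zero (c3.mono fun s hs => by
    have := low (u + s • ((1, 0) : E d)) (by simpa using hs.le)
    simp only [Function.comp_apply, zero_smul, add_zero, id, zero_mul, sub_zero, e]
    simp only [Prod.snd_add, Prod.fst_add, Prod.smul_mk, smul_zero, add_zero, smul_eq_mul,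
      mul_one] at this ⊢
    linarith) c2
  simpa [hp, pair, sub_eq_zero] using c4

end Pool.Agent.P.MP_a0f0ad_al.Fi
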