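import Pool.Agent.P.MP_a0f0ad_al.Fi.V.Iface
import Pool.Agent.P.MP_a0f0ad_al.Fi.V.Cone
import Pool.Agent.P.MP_a0f0ad_al.Fi.Z.Bl

/-! Step PEN of the filiform project. -/

namespace Pool.Agent.P.MP_a0f0ad_al.Fi

open Finset MeasureTheory

namespace PenA

variable {d : ℕ} {S : Finset (G d)} {D : LD d}

theorem convex_feas (D : LD d) (m M : ℝ) : Convex ℝ {q | D.Feas q m M} := by
  intro q hq r hr a b ha hb hab x hx
  rw [ev_add, ev_smul, ev_smul]
  refine (abs_add_le _ _).trans ?_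
  rw [abs_mul, abs_mul, abs_of_nonneg ha, abs_of_nonneg hb]
  have h1 := mul_le_mul_of_nonneg_left (hq x hx) ha
  have h2 := mul_le_mul_of_nonneg_left (hr x hx) hb
  calc _ ≤ a * D.Q + b * D.Q := add_le_add h1 h2
    _ = D.Q := by rw [← add_mul, hab, one_mul]

theorem compact_feas (hMARK : S_MARK) (D : LD d) {m M : ℝ} (h : m < M) :
    IsCompact {q | D.Feas q m M} := by
  refine Metric.isCompact_of_isClosed_isBounded ?_ ?_
  · have e : {q | D.Feas q m M} = ⋂ x ∈ Set.Icc m M, {q : Fin d → ℝ | |ev q 0 x| ≤ D.Q} := by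
      ext q; simp only [LD.Feas, Set.mem_ofPred_eq, Set.mem_iInter]
    rw [e]
    exact isClosed_biInter fun x _ => isClosed_le
      ((continuous_ev_uncurry 0).comp (continuous_id.prodMk continuous_const)).abs
      continuous_const
  · obtain ⟨C, -, hC⟩ := hMARK d (max |m| |M|)
    refine isBounded_iff_forall_norm_le.2 ⟨C * D.Q / (M - m) ^ d, fun q hq => ?_⟩
    rw [le_div_iff₀ (pow_pos (sub_pos.2 h) d)]
    exact (hC q m M D.Q h (by linarith [neg_abs_le m, le_max_left |m| |M|])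
      ((le_abs_self M).trans (le_max_right _ _)) hq).1

theorem cont_int (h : D.Spec S) (σ s t : ℝ) :
    Continuous fun q : Fin d → ℝ => ∫ x in s..t, D.lp (σ * ev q 0 x) :=
  intervalIntegral.continuous_parametric_intervalIntegral_of_continuous'
    (f := fun (q : Fin d → ℝ) (x : ℝ) => D.lp (σ * ev q 0 x))
    (h.continuous_lp.comp (continuous_const.mul (continuous_ev_uncurry 0))) s t

theorem conc_int (h : D.Spec S) (σ : ℝ) {s t : ℝ} (hst : s ≤ t) {F : Set (Fin d → ℝ)}
    (hF : Convex ℝ F) : ConcaveOn ℝ F fun q : Fin d → ℝ => ∫ x in s..t, D.lp (σ * ev q 0 x) := by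
  refine ⟨hF, fun q _ r _ a b ha hb hab => ?_⟩
  have i : ∀ q : Fin d → ℝ, Continuous fun x => D.lp (σ * ev q 0 x) :=
    fun q => h.continuous_lp.comp (continuous_const.mul (continuous_ev q 0))
  simp only [smul_eq_mul]
  rw [← intervalIntegral.integral_const_mul, ← intervalIntegral.integral_const_mul,
    ← intervalIntegral.integral_add (((i q).intervalIntegrable _ _).const_mul a)
      (((i r).intervalIntegrable _ _).const_mul b)]
  refine intervalIntegral.integral_mono_on hst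
    ((((i q).intervalIntegrable _ _).const_mul a).add (((i r).intervalIntegrable _ _).const_mul b))
    ((i _).intervalIntegrable _ _) fun x _ => ?_
  have := h.lp_concave.2 (Set.mem_univ (σ * ev q 0 x)) (Set.mem_univ (σ * ev r 0 x)) ha hb hab
  simp only [smul_eq_mul] at this
  rw [ev_add, ev_smul, ev_smul]
  refine this.trans (le_of_eq ?_)
  congr 1
  ring

theorem Bf_eq (D : LD d) (q : Fin d → ℝ) (m M : ℝ) (u : E d) : D.Bf q m M u =
    dot q u.2 + (∫ x in m..M, D.lp (1 * ev q 0 x)) + (∫ x in m..0, D.lp (-1 * ev q 0 x)) +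
      ∫ x in u.1..M, D.lp (-1 * ev q 0 x) := by
  simp only [LD.Bf, one_mul, neg_mul]

theorem cont_Bf (h : D.Spec S) (m M : ℝ) (u : E d) : Continuous fun q => D.Bf q m M u := by
  simp only [Bf_eq]
  refine ((Continuous.add ?_ (cont_int h _ _ _)).add (cont_int h _ _ _)).add (cont_int h _ _ _)
  unfold dot
  fun_prop

theorem conc_Bf (h : D.Spec S) {m M : ℝ} {u : E d} (hm : m ≤ 0) (hM : u.1 ≤ M) (hmM : m < M)
    {F : Set (Fin d → ℝ)} (hF : Convex ℝ F) : ConcaveOn ℝ F fun q => D.Bf q m M u := by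
  simp only [Bf_eq]
  refine ((ConcaveOn.add ?_ (conc_int h _ hmM.le hF)).add (conc_int h _ hm hF)).add
    (conc_int h _ hM hF)
  refine ⟨hF, fun q _ r _ a b _ _ _ => le_of_eq ?_⟩
  simp only [dot_add_left, dot_smul_left, smul_eq_mul]

theorem le_Psi (hMARK : S_MARK) (h : D.Spec S) {m M : ℝ} (hmM : m < M) (u : E d)
    (q : Fin d → ℝ) (hq : D.Feas q m M) : D.Bf q m M u ≤ D.Psi m M u := by
  refine le_csSup ?_ ⟨q, hq, rfl⟩
  refine ((compact_feas hMARK D hmM).image (cont_Bf h m M u)).bddAbove.mono ?_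
  rintro _ ⟨r, hr, rfl⟩
  exact ⟨r, hr, rfl⟩

end PenA

open PenA in
theorem p_PEN (hMARK : S_MARK) :
    S_PEN := by
  intro d S D h m M u hm _ hM hmM
  refine ⟨le_Psi hMARK h hmM u, fun p t _ => ?_⟩
  have h0 : D.Feas 0 m M := fun x _ => by rw [ev_zero, abs_zero]; exact h.Qpos.le
  obtain ⟨q, hq, hmax⟩ := (compact_feas hMARK D hmM).exists_isMaxOn ⟨0, h0⟩
    (f := fun r => D.Bf r m M u - t / 2 * ((r - p) ⬝ᵥ (r - p)))
    ((cont_Bf h m M u).sub (by fun_prop)).continuousOn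
  have key := prox_opt (convex_feas D m M) (conc_Bf h hm hM hmM (convex_feas D m M)) t p q hq
    fun r hr => hmax hr
  have e : ∀ r, D.Bf r m M (u.1, u.2 - t • (q - p)) = D.Bf r m M u - t * (r ⬝ᵥ (q - p)) := by
    intro r
    have : dot r (q - p) = r ⬝ᵥ (q - p) := rfl
    simp only [LD.Bf, dot_sub_right r u.2, dot_smul_right, this]
    ring
  refine ⟨q, hq, le_antisymm (le_Psi hMARK h hmM _ q hq) ?_⟩
  refine csSup_le ⟨_, 0, h0, rfl⟩ ?_
  rintro _ ⟨r, hr, rfl⟩
  rw [e, e]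
  exact key r hr

end Pool.Agent.P.MP_a0f0ad_al.Fi
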