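import Pool.Agent.P.MP_a0f0ad_al.Fi.V.Iface
import Pool.Agent.P.MP_a0f0ad_al.Fi.Z.Bp

/-! Step SUBG of the filiform project. -/

namespace Pool.Agent.P.MP_a0f0ad_al.Fi

open Finset MeasureTheory

namespace SubgA

open Filter Topology

theorem Bf_add {d : ℕ} (D : LD d) (q : Fin d → ℝ) (m M : ℝ) (u : E d) (h : Fin d → ℝ) :
    D.Bf q m M (u.1, u.2 + h) = D.Bf q m M u + dot q h := by
  simp only [LD.Bf, dot_add_right]
  ring

theorem deriv_le {f : ℝ → ℝ} {a c : ℝ} (hf : HasDerivAt f a 0)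
    (h : ∀ s, 0 < s → s ≤ 1 → f s ≤ f 0 + s * c) : a ≤ c := by
  have h1 := (hasDerivAt_iff_tendsto_slope.1 hf).mono_left
    (nhdsWithin_mono 0 (show Set.Ioi (0 : ℝ) ⊆ {0}ᶜ from fun x hx => ne_of_gt hx))
  refine le_of_tendsto h1 ?_
  filter_upwards [Ioc_mem_nhdsGT (zero_lt_one' ℝ)] with s hs
  rw [slope_def_field, sub_zero, div_le_iff₀ hs.1]
  linarith [h s hs.1 hs.2]

theorem eq_zero_of_dot {d : ℕ} {h : Fin d → ℝ} (e : dot h h ≤ 0) : h = 0 := by
  funext j
  have h1 : h j * h j ≤ dot h h :=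
    single_le_sum (f := fun j => h j * h j) (fun _ _ => mul_self_nonneg _) (mem_univ j)
  exact mul_self_eq_zero.1 (le_antisymm (h1.trans e) (mul_self_nonneg _))

end SubgA

open SubgA in
theorem p_SUBG (hPEN : S_PEN) (hHOM : S_HOM) :
    S_SUBG := by
  rintro d S D hD u p m M hu ⟨L, hL, hLp⟩ hm hM hP
  have hmM : m < M := by linarith
  have h0 := (hPEN d S D hD m M u hm hu.le hM hmM).1
  have step : ∀ h : Fin d → ℝ, D.Psi m M u + dot p.2 h ≤ D.Psi m M (u.1, u.2 + h) := by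
    intro h
    have h1 : HasDerivAt (fun s : ℝ => u + s • ((0, h) : E d)) ((0, h) : E d) 0 := by
      simpa using ((hasDerivAt_id (0 : ℝ)).smul_const ((0, h) : E d)).const_add u
    have h2 : HasDerivAt (fun s : ℝ => D.NN (u + s • ((0, h) : E d))) (L (0, h)) 0 :=
      HasFDerivAt.comp_hasDerivAt (l := D.NN) (0 : ℝ) (by simpa using hL) h1
    have h3 := deriv_le h2 (c := D.Psi m M (u.1, u.2 + h) - D.Psi m M u) fun s s0 s1 => by
      have e : u + s • ((0, h) : E d) = (u.1, u.2 + s • h) := Prod.ext (by simp) rfl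
      obtain ⟨q, hq, hq'⟩ := (hPEN d S D hD m M (u.1, u.2 + s • h) hm hu.le hM hmM).2 0 0 le_rfl
      simp only [zero_smul, sub_zero] at hq'
      have a1 := ((hHOM d S D hD).2.2.1 (u.1, u.2 + s • h) m M hm hu.le hM hmM).1
      have a2 := h0 q hq
      have a3 := (hPEN d S D hD m M (u.1, u.2 + h) hm hu.le hM hmM).1 q hq
      rw [Bf_add] at a3
      rw [Bf_add, dot_smul_right] at hq'
      rw [e, zero_smul, add_zero, ← hP]
      nlinarith [mul_le_mul_of_nonneg_left a3 s0.le, mul_le_mul_of_nonneg_left a2 (sub_nonneg.2 s1)]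
    rw [hLp, pair] at h3
    simp only [mul_zero, zero_add] at h3
    linarith
  obtain ⟨q, hq, hq'⟩ := (hPEN d S D hD m M u hm hu.le hM hmM).2 p.2 1 zero_le_one
  have e : u.2 - (1 : ℝ) • (q - p.2) = u.2 + (p.2 - q) := by
    rw [one_smul]
    abel
  rw [e, Bf_add] at hq'
  have h1 := step (p.2 - q)
  have h2 := h0 q hq
  have h3 : p.2 - q = 0 := eq_zero_of_dot (by rw [dot_sub_left]; linarith)
  rw [h3, dot_zero_right, add_zero, add_zero] at hq'
  rw [sub_eq_zero.1 h3]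
  exact ⟨hq, hq'.trans hP⟩

end Pool.Agent.P.MP_a0f0ad_al.Fi
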